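import Pool.Agent.J4H46.TA.Defs
import Pool.Agent.W352.ChAbs.Main
import Pool.Agent.W401.Cheb.Main

/-!
Infinitely many primes with a Frobenius element with odd cycles on the roots of two polynomials.
-/

set_option autoImplicit false
set_option linter.all false

open Polynomial NumberField IsDedekindDomain Filter Topology
open scoped Classical

namespace Pool.Agent.J4H46.TA

open Pool.Agent.W401.Cheb

theorem chebK : ChebK := Pool.Agent.W352.ChAbs.main chebotarev fun L => torsor L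

section

variable {k : Type} [Field k]

theorem map_root (σ : AlgebraicClosure k ≃ₐ[k] AlgebraicClosure k) {f : k[X]}
    {x : AlgebraicClosure k} (hx : x ∈ f.rootSet (AlgebraicClosure k)) :
    σ x ∈ f.rootSet (AlgebraicClosure k) := by
  rw [mem_rootSet] at hx ⊢
  refine ⟨hx.1, ?_⟩
  have : aeval (σ x) f = σ (aeval x f) := by
    rw [← AlgEquiv.coe_algHom, aeval_algHom_apply]
  rw [this, hx.2, map_zero]

theorem map_root_pow (σ : AlgebraicClosure k ≃ₐ[k] AlgebraicClosure k) {f : k[X]}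
    {x : AlgebraicClosure k} (hx : x ∈ f.rootSet (AlgebraicClosure k)) (i : ℕ) :
    (σ ^ i) x ∈ f.rootSet (AlgebraicClosure k) := map_root _ hx

theorem pow_eq {σ τ : AlgebraicClosure k ≃ₐ[k] AlgebraicClosure k} {f : k[X]}
    (h : ∀ x ∈ f.rootSet (AlgebraicClosure k), σ x = τ x) {x : AlgebraicClosure k}
    (hx : x ∈ f.rootSet (AlgebraicClosure k)) (i : ℕ) : (σ ^ i) x = (τ ^ i) x := by
  induction i with
  | zero => rfl
  | succ i ih =>
    rw [pow_succ', pow_succ', AlgEquiv.mul_apply, AlgEquiv.mul_apply, ih]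
    exact h _ (map_root_pow τ hx i)

theorem OddCycles.congr {σ τ : AlgebraicClosure k ≃ₐ[k] AlgebraicClosure k} {f : k[X]}
    (h : ∀ x ∈ f.rootSet (AlgebraicClosure k), σ x = τ x) (hσ : OddCycles σ f) :
    OddCycles τ f := by
  obtain ⟨x, hx, y, hy, ⟨m, om, em⟩, ⟨n, on, en⟩, hall⟩ := hσ
  refine ⟨x, hx, y, hy, ⟨m, om, ?_⟩, ⟨n, on, ?_⟩, fun z hz => ?_⟩
  · rw [← pow_eq h hx]; exact em
  · rw [← pow_eq h hy]; exact en
  · obtain ⟨i, hi | hi⟩ := hall z hz
    · exact ⟨i, Or.inl (by rw [hi, pow_eq h hx])⟩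
    · exact ⟨i, Or.inr (by rw [hi, pow_eq h hy])⟩

theorem OddCycles.conj {σ : AlgebraicClosure k ≃ₐ[k] AlgebraicClosure k} {f : k[X]}
    (hσ : OddCycles σ f) (τ : AlgebraicClosure k ≃ₐ[k] AlgebraicClosure k) :
    OddCycles (τ * σ * τ⁻¹) f := by
  obtain ⟨x, hx, y, hy, ⟨m, om, em⟩, ⟨n, on, en⟩, hall⟩ := hσ
  have hc : ∀ (i : ℕ) (w : AlgebraicClosure k), ((τ * σ * τ⁻¹) ^ i) (τ w) = τ ((σ ^ i) w) := by
    intro i w
    rw [conj_pow, AlgEquiv.mul_apply, AlgEquiv.mul_apply]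
    congr 2
    show (τ⁻¹ * τ) w = w
    rw [inv_mul_cancel]; rfl
  refine ⟨τ x, map_root τ hx, τ y, map_root τ hy, ⟨m, om, ?_⟩, ⟨n, on, ?_⟩, fun z hz => ?_⟩
  · rw [hc, em]
  · rw [hc, en]
  · have e : z = τ (τ⁻¹ z) := by
      show z = (τ * τ⁻¹) z
      rw [mul_inv_cancel]; rfl
    obtain ⟨i, hi | hi⟩ := hall (τ⁻¹ z) (map_root τ⁻¹ hz)
    · exact ⟨i, Or.inl (by rw [hc, ← hi]; exact e)⟩
    · exact ⟨i, Or.inr (by rw [hc, ← hi]; exact e)⟩

end

section

variable {k : Type} [Field k] [NumberField k]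

theorem fin_le (N : ℕ) : {v : HeightOneSpectrum (𝓞 k) | Ideal.absNorm v.asIdeal ≤ N}.Finite := by
  refine Set.Finite.of_finite_image (f := fun p : HeightOneSpectrum (𝓞 k) => p.asIdeal)
    ((Ideal.finite_setOf_absNorm_le (S := 𝓞 k) N).subset ?_) ?_
  · rintro _ ⟨p, hp, rfl⟩
    exact hp
  · intro p _ q _ h
    exact HeightOneSpectrum.ext h

/-- A property of the primes with a Frobenius element in an open set holds for a set of primes of
positive lower density. -/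
theorem pos_dens {C : Set (GK k)} (U : Subgroup (GK k)) [U.Normal]
    (hU : IsOpen (U : Set (GK k))) (hC : ∀ σ ∈ C, ∀ τ : GK k, τ * σ * τ⁻¹ ∈ C)
    (hCU : ∀ σ ∈ C, ∀ u ∈ U, σ * u ∈ C) (hne : C.Nonempty) {P : HeightOneSpectrum (𝓞 k) → Prop}
    {S : Set (HeightOneSpectrum (𝓞 k))} (hS : S.Finite)
    (h : ∀ v ∉ S, (∃ σ ∈ C, IsFrob v σ) → P v) :
    ∃ δ : ℝ, 0 < δ ∧ ∀ᶠ N : ℕ in atTop, δ ≤ dens P N := by
  have h1 := chebK k U hU C hC hCU
  have hq : Finite (GK k ⧸ U) := Subgroup.quotient_finite_of_isOpen U hU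
  obtain ⟨ρ, hρ⟩ : ∃ ρ, ρ = ((((QuotientGroup.mk : GK k → GK k ⧸ U) '' C).ncard : ℝ) /
      (Nat.card (GK k ⧸ U) : ℝ)) := ⟨_, rfl⟩
  have h2 : (0 : ℝ) < ρ := by
    have h3 : 0 < ((QuotientGroup.mk : GK k → GK k ⧸ U) '' C).ncard := by
      rw [Set.ncard_pos (Set.toFinite _)]
      exact hne.image _
    have h4 : 0 < Nat.card (GK k ⧸ U) := Nat.card_pos
    rw [hρ]
    positivity
  rw [← hρ] at h1
  have h6 : Tendsto (fun N : ℕ => ((hS.toFinset.card : ℝ)) / (Nat.primeCounting N : ℝ)) atTop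
      (𝓝 0) := by
    apply Tendsto.div_atTop tendsto_const_nhds
    exact tendsto_natCast_atTop_atTop.comp Nat.tendsto_primeCounting
  have h7 := h1.sub h6
  rw [sub_zero] at h7
  refine ⟨ρ / 2, by positivity, ?_⟩
  filter_upwards [(tendsto_order.1 h7).1 (ρ / 2) (by linarith)] with N hN
  refine hN.le.trans ?_
  unfold dens
  rw [div_sub_div_same]
  refine div_le_div_of_nonneg_right ?_ (Nat.cast_nonneg _)
  have hsub : {v : HeightOneSpectrum (𝓞 k) | Ideal.absNorm v.asIdeal ≤ N ∧ ∃ σ ∈ C, IsFrob v σ} ⊆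
      {v : HeightOneSpectrum (𝓞 k) | Ideal.absNorm v.asIdeal ≤ N ∧ P v} ∪
        (hS.toFinset : Set (HeightOneSpectrum (𝓞 k))) := by
    intro v hv
    by_cases hvS : v ∈ S
    · right
      rw [Finset.mem_coe, Set.Finite.mem_toFinset]
      exact hvS
    · exact Or.inl ⟨hv.1, h v hvS hv.2⟩
  have hfin : {v : HeightOneSpectrum (𝓞 k) | Ideal.absNorm v.asIdeal ≤ N ∧ P v}.Finite :=
    (fin_le N).subset fun v hv => hv.1
  have h8 := (Set.ncard_le_ncard hsub (hfin.union (Finset.finite_toSet _))).trans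
    (Set.ncard_union_le _ _)
  rw [Set.ncard_coe_finset] at h8
  have e1 : Nat.card {v : HeightOneSpectrum (𝓞 k) // Ideal.absNorm v.asIdeal ≤ N ∧
      ∃ σ ∈ C, IsFrob v σ} = {v : HeightOneSpectrum (𝓞 k) | Ideal.absNorm v.asIdeal ≤ N ∧
      ∃ σ ∈ C, IsFrob v σ}.ncard := rfl
  have e2 : Nat.card {v : HeightOneSpectrum (𝓞 k) // Ideal.absNorm v.asIdeal ≤ N ∧ P v} =
      {v : HeightOneSpectrum (𝓞 k) | Ideal.absNorm v.asIdeal ≤ N ∧ P v}.ncard := rfl
  rw [e1, e2, sub_le_iff_le_add]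
  exact_mod_cast h8

theorem open_ker (P : k[X]) :
    IsOpen (((MulAction.toPermHom (GK k) (P.rootSet (AlgebraicClosure k))).ker :
      Subgroup (GK k)) : Set (GK k)) := by
  haveI : FiniteDimensional k (IntermediateField.adjoin k (P.rootSet (AlgebraicClosure k))) :=
    IntermediateField.finiteDimensional_adjoin (fun x _ => Algebra.IsIntegral.isIntegral x)
  refine Subgroup.isOpen_mono ?_ (IntermediateField.fixingSubgroup_isOpen
    (IntermediateField.adjoin k (P.rootSet (AlgebraicClosure k))))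
  intro σ hσ
  rw [MonoidHom.mem_ker]
  ext x
  show σ x = x
  exact hσ ⟨x, IntermediateField.subset_adjoin k _ x.2⟩

/-- **A positive proportion of the primes.** -/
theorem pos_odd {f g : k[X]} (hf : f ≠ 0) (hg : g ≠ 0) {σ : GK k} (h1 : OddCycles σ f)
    (h2 : OddCycles σ g) {P : HeightOneSpectrum (𝓞 k) → Prop}
    {S : Set (HeightOneSpectrum (𝓞 k))} (hS : S.Finite)
    (h : ∀ v ∉ S, ∀ τ : GK k, OddCycles τ f → OddCycles τ g → IsFrob v τ → P v) :
    ∃ δ : ℝ, 0 < δ ∧ ∀ᶠ N : ℕ in atTop, δ ≤ dens P N := by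
  have hfg : f * g ≠ 0 := mul_ne_zero hf hg
  refine pos_dens (C := {τ : GK k | OddCycles τ f ∧ OddCycles τ g})
    (MulAction.toPermHom (GK k) ((f * g).rootSet (AlgebraicClosure k))).ker (open_ker (f * g))
    ?_ ?_ ⟨σ, h1, h2⟩ hS ?_
  · rintro τ ⟨h3, h4⟩ ρ
    exact ⟨h3.conj ρ, h4.conj ρ⟩
  · rintro τ ⟨h3, h4⟩ u hu
    have hux : ∀ x ∈ (f * g).rootSet (AlgebraicClosure k), u x = x := by
      intro x hx
      have h5 := congrArg (fun π : Equiv.Perm ((f * g).rootSet (AlgebraicClosure k)) =>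
        ((π ⟨x, hx⟩ : (f * g).rootSet (AlgebraicClosure k)) : AlgebraicClosure k))
        (MonoidHom.mem_ker.1 hu)
      exact h5
    have hmem : ∀ x, (x ∈ f.rootSet (AlgebraicClosure k) ∨ x ∈ g.rootSet (AlgebraicClosure k)) →
        x ∈ (f * g).rootSet (AlgebraicClosure k) := by
      intro x hx
      rw [mem_rootSet]
      refine ⟨hfg, ?_⟩
      rw [map_mul]
      rcases hx with hx | hx
      · rw [(mem_rootSet.1 hx).2, zero_mul]
      · rw [(mem_rootSet.1 hx).2, mul_zero]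
    refine ⟨OddCycles.congr (fun x hx => ?_) h3, OddCycles.congr (fun x hx => ?_) h4⟩
    · rw [AlgEquiv.mul_apply, hux x (hmem x (Or.inl hx))]
    · rw [AlgEquiv.mul_apply, hux x (hmem x (Or.inr hx))]
  · rintro v hv ⟨τ, ⟨h3, h4⟩, h5⟩
    exact h v hv τ h3 h4 h5

end

end Pool.Agent.J4H46.TA
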