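import Pool.Agent.J4H46.TA.Loc
import Pool.Agent.X243.Tate.OneTor

/-!
The Tate conjecture at two for the curves with a rational point of order two such that
`b` and `a ^ 2 - 4 b` have two irreducible factors, of odd degree.
-/

set_option autoImplicit false
set_option linter.all false

open WeierstrassCurve WeierstrassCurve.Affine IsDedekindDomain Polynomial
open scoped Classical

namespace Pool.Agent.J4H46.TA

open Pool.Agent.TH115.GD Pool.Agent.X243.CD Pool.Agent.X243.Gen Pool.Agent.X243.Tate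
open Pool.Agent.W309

variable {κ κ' K F : Type} [Field κ] [Field κ'] [Algebra κ κ'] [Field K] [Algebra κ[X] K]
    [Field F] [Algebra κ'[X] F] [IsFractionRing κ'[X] F] [Algebra K F]

theorem enough_two (hT : IsTower κ κ' K F) (h2 : (2 : κ) ≠ 0) {a b : κ[X]} {n : ℕ}
    (ha : a.natDegree ≤ 2 * n) (hb : Fac n b) : EnoughTI K F a b := by
  haveI := hT.sep
  haveI := hT.fracK
  haveI : IsSepClosed κ' := IsSepClosure.sep_closed κ
  have hKF := hT.map
  have hbK : algebraMap κ[X] K b ≠ 0 := by simpa using hb.ne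
  have k1 : ∀ A : κ[X], A = 1 →
      ∃ P : Pt (crvT (algebraMap κ[X] K a) (algebraMap κ[X] K b)) K,
        Represents K F A (dT (algebraMap κ[X] K b) P) := by
    rintro A rfl
    refine ⟨0, 1, one_ne_zero, ?_⟩
    show algebraMap K F (algebraMap κ[X] K 1) = 1 ^ 2 * algebraMap K F 1
    rw [map_one, one_pow, one_mul]
  have k2 : ∀ (A : κ[X]) (u : κ), u ≠ 0 → b = C u * A →
      ∃ P : Pt (crvT (algebraMap κ[X] K a) (algebraMap κ[X] K b)) K,
        Represents K F A (dT (algebraMap κ[X] K b) P) := by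
    intro A u hu e
    refine ⟨Point.some 0 0 (nons_zero _ hbK), ?_⟩
    have h2' : (2 : κ') ≠ 0 := by
      rw [← map_ofNat (algebraMap κ κ') 2]
      exact (_root_.map_ne_zero _).2 h2
    haveI : NeZero ((2 : ℕ) : κ') := ⟨by exact_mod_cast h2'⟩
    obtain ⟨s, hs⟩ := IsSepClosed.exists_pow_nat_eq (algebraMap κ κ' u⁻¹) 2
    have hs0 : s ≠ 0 := by
      rintro rfl
      rw [zero_pow two_ne_zero] at hs
      exact (_root_.map_ne_zero _).2 (inv_ne_zero hu) hs.symm
    have hsF : algebraMap κ'[X] F (C s) ≠ 0 := by simpa using hs0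
    refine ⟨algebraMap κ'[X] F (C s), hsF, ?_⟩
    have hsq : algebraMap κ'[X] F (C s) ^ 2 = algebraMap K F (algebraMap κ[X] K (C u⁻¹)) := by
      rw [← map_pow, ← C_pow, hs, hKF, map_C]
    have hd : dT (algebraMap κ[X] K b) (Point.some 0 0 (nons_zero (algebraMap κ[X] K a) hbK)) =
        algebraMap κ[X] K b := by
      simp [dT]
    rw [hd, hsq, e, ← map_mul, ← map_mul, ← mul_assoc, ← C_mul, inv_mul_cancel₀ hu, C_1, one_mul]
  rcases hb with hb | ⟨hb, hbd⟩
  · obtain ⟨u, p, hu, mp, ip, op, e⟩ := hb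
    intro A mA sA hA hI
    rcases one_dvd' hu mp ip mA (e ▸ hA) with h | h
    · exact k1 A h
    · exact k2 A u hu (by rw [e, h])
  · obtain ⟨u, p, q, hu, mp, mq, ip, iq, op, oq, hne, e⟩ := hb
    intro A mA sA hA hI
    have hA' : A ∣ C u * (p * q) := e ▸ hA
    rcases even_dvd hu mp mq ip iq op oq hne mA sA hA' (hI n ha hbd) with h | h
    · exact k1 A h
    · exact k2 A u hu (by rw [e, h])

theorem sep_of {f : κ[X]} (hf : f.Separable) {π : κ[X]} (h : π ∣ f) : π.Separable := hf.of_dvd h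

/-- **The Tate conjecture at two.** -/
theorem tate_all (hT : IsTower κ κ' K F) (h2 : (2 : κ) ≠ 0) {a b : κ[X]} {n : ℕ}
    (ha : a.natDegree ≤ 2 * n) (sb : b.Separable) (sd : (a ^ 2 - 4 * b).Separable)
    (hb : Fac n b) (hd : Fac n (a ^ 2 - 4 * b)) :
    TateAtTwo (F := F) κ' (crvT (algebraMap κ[X] K a) (algebraMap κ[X] K b)) := by
  have ha' : (-2 * a).natDegree ≤ 2 * n := by
    have e1 : (-2 * a : κ[X]) = C (-2) * a := by rw [C_neg, C_ofNat]
    rw [e1]
    exact (natDegree_C_mul_le _ _).trans ha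
  refine mainTI hT h2 hb.ne hd.ne ?_ (notNorm_of_factor (odd_factor hb))
    (notNorm_of_factor (odd_factor hd)) (enough_two hT h2 ha hb)
    (enough_two hT h2 ha' hd)
  intro π hπ h
  rcases hπ.prime.dvd_or_dvd h with h | h
  · exact sb.of_dvd h
  · exact sd.of_dvd h

end Pool.Agent.J4H46.TA
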