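import Pool.Agent.J4H46.TA.Red
import Pool.Agent.J4H46.TA.LocT
import Pool.Agent.J4H46.TA.Cheb

/-!
The reductions of a curve with a rational point of order two at the primes with a given Frobenius
element.
-/

set_option autoImplicit false
set_option linter.all false

open Polynomial NumberField IsDedekindDomain Filter Topology WeierstrassCurve
open scoped Classical

namespace Pool.Agent.J4H46.TA

open Pool.Agent.W401.Cheb Pool.Agent.TH115.GD Pool.Agent.W309

section sep

/-- The reductions of two coprime polynomials are coprime outside of a finite set. -/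
theorem cop_red {R k : Type} [CommRing R] [IsDomain R] [Field k] [Algebra R k] [IsFractionRing R k]
    {f g : R[X]} (hf : IsCoprime (f.map (algebraMap R k)) (g.map (algebraMap R k))) :
    ∃ s : R, s ≠ 0 ∧ ∀ (κ : Type) [Field κ] (r : R →+* κ), r s ≠ 0 →
      IsCoprime (f.map r) (g.map r) := by
  obtain ⟨U, V, h⟩ := hf
  obtain ⟨b1, hb1, e1⟩ := IsLocalization.integerNormalization_spec (nonZeroDivisors R) U
  obtain ⟨b2, hb2, e2⟩ := IsLocalization.integerNormalization_spec (nonZeroDivisors R) V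
  obtain ⟨U1, hU1⟩ : ∃ U1, U1 = IsLocalization.integerNormalization (nonZeroDivisors R) U := ⟨_, rfl⟩
  obtain ⟨V1, hV1⟩ : ∃ V1, V1 = IsLocalization.integerNormalization (nonZeroDivisors R) V := ⟨_, rfl⟩
  rw [← hU1] at e1
  rw [← hV1] at e2
  have key : (C b2 * U1) * f + (C b1 * V1) * g = C (b1 * b2) := by
    apply map_injective (algebraMap R k) (IsFractionRing.injective R k)
    have s1 : b1 • U = C (algebraMap R k b1) * U := by
      rw [← smul_eq_C_mul, algebraMap_smul]
    have s2 : b2 • V = C (algebraMap R k b2) * V := by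
      rw [← smul_eq_C_mul, algebraMap_smul]
    rw [Polynomial.map_add, Polynomial.map_mul, Polynomial.map_mul, Polynomial.map_mul,
      Polynomial.map_mul, map_C, map_C, map_C, e1, e2, s1, s2, map_mul, C_mul]
    linear_combination (C (algebraMap R k b1) * C (algebraMap R k b2)) * h
  refine ⟨b1 * b2, mul_ne_zero (nonZeroDivisors.ne_zero hb1) (nonZeroDivisors.ne_zero hb2), ?_⟩
  intro κ _ r hr
  obtain ⟨P, hP⟩ : ∃ P, P = C b2 * U1 := ⟨_, rfl⟩
  obtain ⟨P', hP'⟩ : ∃ P', P' = C b1 * V1 := ⟨_, rfl⟩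
  rw [← hP, ← hP'] at key
  have h3 := congrArg (Polynomial.map r) key
  rw [Polynomial.map_add, Polynomial.map_mul, Polynomial.map_mul, map_C] at h3
  have h4 : C (r (b1 * b2))⁻¹ * C (r (b1 * b2)) = (1 : κ[X]) := by
    rw [← C_mul, inv_mul_cancel₀ hr, C_1]
  refine ⟨C (r (b1 * b2))⁻¹ * P.map r, C (r (b1 * b2))⁻¹ * P'.map r, ?_⟩
  rw [mul_assoc, mul_assoc, ← mul_add, h3, h4]

/-- The reductions of a separable polynomial are separable outside of a finite set. -/
theorem sep_red {R k : Type} [CommRing R] [IsDomain R] [Field k] [Algebra R k] [IsFractionRing R k]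
    {f : R[X]} (hf : (f.map (algebraMap R k)).Separable) :
    ∃ s : R, s ≠ 0 ∧ ∀ (κ : Type) [Field κ] (r : R →+* κ), r s ≠ 0 → (f.map r).Separable := by
  have h1 : IsCoprime (f.map (algebraMap R k)) ((derivative f).map (algebraMap R k)) := by
    rw [← derivative_map]; exact hf
  obtain ⟨s, hs, h⟩ := cop_red h1
  refine ⟨s, hs, fun κ _ r hr => ?_⟩
  have h2 := h κ r hr
  rw [← derivative_map] at h2
  exact h2

variable {k : Type} [Field k] [NumberField k]

theorem fin_bad {s : 𝓞 k} (hs : s ≠ 0) : {v : HeightOneSpectrum (𝓞 k) | s ∈ v.asIdeal}.Finite := by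
  have h3 : (Ideal.span {s}) ≠ 0 := by
    rw [Ne, Ideal.zero_eq_bot, Ideal.span_singleton_eq_bot]
    exact hs
  refine (Ideal.finite_factors h3).subset ?_
  intro p hp
  show p.asIdeal ∣ _
  rw [Ideal.dvd_span_singleton]
  exact hp

end sep

section frob

variable {k : Type} [Field k] [NumberField k]

theorem norm_card {v : HeightOneSpectrum (𝓞 k)} {κ : Type} [Field κ] {r : 𝓞 k →+* κ}
    (hr : Function.Surjective r) (hk : RingHom.ker r = v.asIdeal) :
    Ideal.absNorm v.asIdeal = Nat.card κ := by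
  rw [Ideal.absNorm_apply, Submodule.cardQuot_apply, ← hk]
  exact Nat.card_congr (RingHom.quotientKerEquivOfSurjective hr).toEquiv

theorem fin_res {v : HeightOneSpectrum (𝓞 k)} {κ : Type} [Field κ] {r : 𝓞 k →+* κ}
    (hr : Function.Surjective r) (hk : RingHom.ker r = v.asIdeal) : Finite κ := by
  apply Nat.finite_of_card_ne_zero
  rw [← norm_card hr hk]
  exact Ideal.absNorm_ne_zero_iff_mem_nonZeroDivisors.2 (mem_nonZeroDivisors_of_ne_zero v.ne_bot)

theorem frob_split {f : (𝓞 k)[X]} {v : HeightOneSpectrum (𝓞 k)} {τ : GK k} (hF : IsFrob v τ)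
    (hc : OddCycles τ (f.map (algebraMap (𝓞 k) k))) {κ : Type} [Field κ]
    {r : 𝓞 k →+* κ} (hr : Function.Surjective r) (hk : RingHom.ker r = v.asIdeal)
    (hl : r f.leadingCoeff ≠ 0) (sf : (f.map r).Separable) :
    (Odd f.natDegree → OneOddFac (f.map r)) ∧ (Even f.natDegree → TwoOddFac (f.map r)) := by
  haveI := fin_res hr hk
  obtain ⟨Q, hQ, hQv, hQF⟩ := hF
  letI : Field (𝓞 (AlgebraicClosure k) ⧸ Q) := Ideal.Quotient.field Q
  have hker : RingHom.ker r ≤
      RingHom.ker ((Ideal.Quotient.mk Q).comp (algebraMap (𝓞 k) (𝓞 (AlgebraicClosure k)))) := by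
    intro x hx
    rw [hk, ← hQv, Ideal.mem_comap] at hx
    rw [RingHom.mem_ker, RingHom.comp_apply, Ideal.Quotient.eq_zero_iff_mem]
    exact hx
  letI : Algebra κ (𝓞 (AlgebraicClosure k) ⧸ Q) :=
    (r.liftOfSurjective hr ⟨_, hker⟩).toAlgebra
  have hφ : ∀ x : 𝓞 k, Ideal.Quotient.mk Q (algebraMap (𝓞 k) (𝓞 (AlgebraicClosure k)) x) =
      algebraMap κ (𝓞 (AlgebraicClosure k) ⧸ Q) (r x) := by
    intro x
    exact (RingHom.liftOfSurjective_comp_apply r hr ⟨_, hker⟩ x).symm
  obtain ⟨x, hx, y, hy, ⟨m, om, em⟩, ⟨n, on, en⟩, hall⟩ := hc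
  have hjg : (algebraMap (𝓞 (AlgebraicClosure k)) (AlgebraicClosure k)).comp
      (algebraMap (𝓞 k) (𝓞 (AlgebraicClosure k))) = algebraMap (𝓞 k) (AlgebraicClosure k) := rfl
  have hroot : ∀ z : AlgebraicClosure k,
      z ∈ (f.map (algebraMap (𝓞 k) k)).rootSet (AlgebraicClosure k) ↔
      eval₂ (algebraMap (𝓞 k) (AlgebraicClosure k)) z f = 0 := by
    intro z
    have hf0 : f.map (algebraMap (𝓞 k) k) ≠ 0 := by
      intro h0
      rw [Polynomial.map_eq_zero_iff (FaithfulSMul.algebraMap_injective (𝓞 k) k)] at h0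
      rw [h0, leadingCoeff_zero, map_zero] at hl
      exact hl rfl
    rw [mem_rootSet, aeval_map_algebraMap, aeval_def]
    exact ⟨fun h => h.2, fun h => ⟨hf0, h⟩⟩
  have hit : ∀ (i : ℕ) (z : AlgebraicClosure k),
      ((τ : AlgebraicClosure k →ₐ[k] AlgebraicClosure k) :
        AlgebraicClosure k →+* AlgebraicClosure k)^[i] z = (τ ^ i) z := by
    intro i
    induction i with
    | zero => intro z; rfl
    | succ i ih =>
      intro z
      rw [Function.iterate_succ_apply', ih, pow_succ', AlgEquiv.mul_apply]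
      rfl
  refine red_split (R := 𝓞 k) (S := 𝓞 (AlgebraicClosure k)) (kb := AlgebraicClosure k)
    (Ω := 𝓞 (AlgebraicClosure k) ⧸ Q) (g := algebraMap (𝓞 k) (𝓞 (AlgebraicClosure k)))
    (j := algebraMap (𝓞 (AlgebraicClosure k)) (AlgebraicClosure k))
    (FaithfulSMul.algebraMap_injective _ _) (φ := Ideal.Quotient.mk Q) hφ
    (t := MulSemiringAction.toRingHom (GK k) (𝓞 (AlgebraicClosure k)) τ)
    (τ := ((τ : AlgebraicClosure k →ₐ[k] AlgebraicClosure k) :
        AlgebraicClosure k →+* AlgebraicClosure k)) (fun s => rfl) (fun s => ?_) hl sf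
    (IsAlgClosed.splits _) (fun β hβ => ?_) (fun z => ?_) (x := x) (y := y) ?_ ?_ om on ?_ ?_
    (fun z hz => ?_)
  · rw [← map_pow, Ideal.Quotient.eq, ← norm_card hr hk]
    exact hQF s
  · have h1 : IsIntegral (𝓞 k) (algebraMap (𝓞 k) (AlgebraicClosure k) f.leadingCoeff * β) :=
      (algebraMap (𝓞 k) (AlgebraicClosure k)).isIntegralElem_leadingCoeff_mul f β hβ
    have h2 : IsIntegral ℤ (algebraMap (𝓞 k) (AlgebraicClosure k) f.leadingCoeff * β) :=
      isIntegral_trans _ h1
    exact ⟨⟨_, h2⟩, rfl⟩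
  · apply RingOfIntegers.ext
    show τ _ = _
    exact τ.commutes _
  · rw [hjg]; exact (hroot x).1 hx
  · rw [hjg]; exact (hroot y).1 hy
  · rw [hit]; exact em
  · rw [hit]; exact en
  · rw [hjg] at hz
    obtain ⟨i, h | h⟩ := hall z ((hroot z).2 hz)
    · exact ⟨i, Or.inl (by rw [hit]; exact h)⟩
    · exact ⟨i, Or.inr (by rw [hit]; exact h)⟩

theorem frob_fac {n : ℕ} {f : (𝓞 k)[X]} {v : HeightOneSpectrum (𝓞 k)} {τ : GK k}
    (hF : IsFrob v τ)
    (hc : OddCycles τ (f.map (algebraMap (𝓞 k) k))) {κ : Type} [Field κ]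
    {r : 𝓞 k →+* κ} (hr : Function.Surjective r) (hk : RingHom.ker r = v.asIdeal)
    (hl : r f.leadingCoeff ≠ 0) (sf : (f.map r).Separable)
    (hd : Odd f.natDegree ∨ f.natDegree = 4 * n) : Fac n (f.map r) := by
  obtain ⟨h1, h2⟩ := frob_split hF hc hr hk hl sf
  rcases hd with hd | hd
  · exact Or.inl (h1 hd)
  · refine Or.inr ⟨h2 (by rw [hd]; exact ⟨2 * n, by ring⟩), ?_⟩
    rw [natDegree_map_of_leadingCoeff_ne_zero r hl, hd]

end frob

end Pool.Agent.J4H46.TA
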