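import Pool.Agent.TH115.GD.Defs
import Pool.Agent.TH115.ID.Defs
import Pool.Agent.W309.TD.Stmt
import Pool.Agent.W401.Cheb.AbsDefs

/-!
Definitions: automorphisms with at most two cycles, of odd lengths, on the roots of a polynomial, and
the primes at which an elliptic surface with a section of order two has good reduction and the
reduction has the properties `HoldsFor`.
-/

set_option autoImplicit false
set_option linter.all false

open Polynomial NumberField IsDedekindDomain WeierstrassCurve
open scoped Classical

namespace Pool.Agent.J4H46.TA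

open Pool.Agent.W401.Cheb Pool.Agent.TH115.GD Pool.Agent.W309

/-- The automorphism `σ` permutes the roots of `f` in at most two cycles, of odd lengths. -/
def OddCycles {k : Type} [Field k] (σ : AlgebraicClosure k ≃ₐ[k] AlgebraicClosure k) (f : k[X]) :
    Prop :=
  ∃ x ∈ f.rootSet (AlgebraicClosure k), ∃ y ∈ f.rootSet (AlgebraicClosure k),
    (∃ m : ℕ, Odd m ∧ (σ ^ m) x = x) ∧ (∃ n : ℕ, Odd n ∧ (σ ^ n) y = y) ∧
    ∀ z ∈ f.rootSet (AlgebraicClosure k), ∃ i : ℕ, z = (σ ^ i) x ∨ z = (σ ^ i) y

/-- Every class of 2-power order in `H ^ 1 (K, W)`, `K = κ(t)`, which is trivial over the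
completions of `K` at all the places, the maximal ideals of `κ[t]` and the place at infinity, is
zero: the Tate-Shafarevich group of `W` has no element of order two. -/
def ShaTwoTrivialAll (κ : Type) {K : Type} [Field κ] [Field K] [Algebra κ[X] K]
    [IsFractionRing κ[X] K] (W : WeierstrassCurve K) : Prop :=
  ∀ f : Sha.Cochain W, Sha.IsContinuousCocycle W f → Sha.LocallyTrivial κ[X] W f →
    Sha.IsTrivialOver W (CompInf κ K) f → Sha.IsTwoPowerTorsion W f → Sha.IsCoboundary W f

/-- The twist `y² = x (x² + c a x + c² b)` by the constant `c` of `y² = x (x² + a x + b)`, over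
`K = κ(t)`. -/
noncomputable abbrev twist {κ : Type} [Field κ] (K : Type) [Field K] [Algebra κ[X] K] (a b : κ[X])
    (c : κ) : WeierstrassCurve K :=
  crvT (algebraMap κ[X] K (C c * a)) (algebraMap κ[X] K (C (c ^ 2) * b))

/-- The conclusions for all the twists by constants: the Tate conjecture at 2, every point is the
double of a point plus a point of order at most two, the group of points is finite if it is finitely
generated, and there is no element of order two in the Tate-Shafarevich group (`κ'` is a separable
closure of `κ`, `K = κ(t)`, `F = κ'(t)`). -/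
def HoldsFor (κ : Type) [Field κ] (a b : κ[X]) : Prop :=
  ∀ (κ' K F : Type) [Field κ'] [Algebra κ κ'] [Field K] [Algebra κ[X] K] [IsFractionRing κ[X] K]
    [Field F] [Algebra κ'[X] F] [IsFractionRing κ'[X] F] [Algebra K F], IsTower κ κ' K F →
    ∀ c : κ, c ≠ 0 →
      TateAtTwo (F := F) κ' (twist K a b c) ∧
      Sha.PointsComplete (twist K a b c) ∧
      (AddGroup.FG (Pt (twist K a b c) K) → Finite (Pt (twist K a b c) K)) ∧
      ShaTwoTrivialAll κ (twist K a b c)

/-- At the prime `v` of `k` the surface `y² = x (x² + a x + b)` has good reduction: the residue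
field `κ` has odd characteristic, the reductions of `b` and `a² - 4 b` are separable, have the same
degrees as `b` and `a² - 4 b` and are coprime (unless `a = 0`). The conclusions `HoldsFor` are true for
the reduction. -/
def GoodPrime {k : Type} [Field k] [NumberField k] (a b : (𝓞 k)[X])
    (v : HeightOneSpectrum (𝓞 k)) : Prop :=
  ∀ (κ : Type) [Field κ] (r : 𝓞 k →+* κ), Function.Surjective r → RingHom.ker r = v.asIdeal →
    (2 : κ) ≠ 0 ∧
    (b.map r).natDegree = b.natDegree ∧ (b.map r).Separable ∧
    ((a ^ 2 - 4 * b).map r).natDegree = (a ^ 2 - 4 * b).natDegree ∧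
    ((a ^ 2 - 4 * b).map r).Separable ∧
    (a = 0 ∨ IsCoprime (b.map r) ((a ^ 2 - 4 * b).map r)) ∧
    HoldsFor κ (a.map r) (b.map r)

end Pool.Agent.J4H46.TA
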