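import Pool.Agent.J4H46.TA.Grp
import Pool.Agent.J4H46.TA.Cheb
import Pool.Agent.X243.Sol.Ext
import Pool.Agent.X243.Gen.Full

/-!
Automorphisms which permute the roots of two polynomials in at most two cycles, of odd lengths.
-/

set_option autoImplicit false
set_option linter.all false

open Polynomial
open scoped Classical

namespace Pool.Agent.J4H46.TA

open Pool.Agent.W401.Cheb Pool.Agent.X243.Gen Pool.Agent.X243.Sol

section perm

variable {k : Type} [Field k]

theorem oddCycles_of {σ : AlgebraicClosure k ≃ₐ[k] AlgebraicClosure k} {f : k[X]}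
    (h : OddCyc (MulAction.toPermHom (AlgebraicClosure k ≃ₐ[k] AlgebraicClosure k)
      (f.rootSet (AlgebraicClosure k)) σ)) : OddCycles σ f := by
  obtain ⟨x, y, ⟨m, om, em⟩, ⟨n, on, en⟩, hall⟩ := h
  have hp : ∀ (i : ℕ) (z : f.rootSet (AlgebraicClosure k)),
      ((((MulAction.toPermHom (AlgebraicClosure k ≃ₐ[k] AlgebraicClosure k)
      (f.rootSet (AlgebraicClosure k)) σ) ^ i) z : f.rootSet (AlgebraicClosure k)) :
        AlgebraicClosure k) = (σ ^ i) z := by
    intro i z
    rw [← map_pow]
    rfl
  refine ⟨x, x.2, y, y.2, ⟨m, om, ?_⟩, ⟨n, on, ?_⟩, fun z hz => ?_⟩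
  · rw [← hp, em]
  · rw [← hp, en]
  · obtain ⟨i, h | h⟩ := hall ⟨z, hz⟩
    · refine ⟨i, Or.inl ?_⟩
      rw [← hp, ← h]
    · refine ⟨i, Or.inr ?_⟩
      rw [← hp, ← h]

theorem card_range (f : k[X]) :
    Nat.card (MulAction.toPermHom (AlgebraicClosure k ≃ₐ[k] AlgebraicClosure k)
      (f.rootSet (AlgebraicClosure k))).range = Nat.card f.Gal := by
  haveI : Fact ((f.map (algebraMap k (AlgebraicClosure k))).Splits) := ⟨IsAlgClosed.splits _⟩
  have h1 : MulAction.toPermHom (AlgebraicClosure k ≃ₐ[k] AlgebraicClosure k)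
      (f.rootSet (AlgebraicClosure k)) =
      (Gal.galActionHom f (AlgebraicClosure k)).comp (Gal.restrict f (AlgebraicClosure k)) := by
    apply MonoidHom.ext
    intro σ
    apply Equiv.Perm.ext
    intro x
    apply Subtype.ext
    exact (Gal.restrict_smul σ x).symm
  rw [h1, MonoidHom.range_comp,
    MonoidHom.range_eq_top.2 (Gal.restrict_surjective f (AlgebraicClosure k)),
    ← MonoidHom.range_eq_map]
  exact (Nat.card_congr (MonoidHom.ofInjective (Gal.galActionHom_injective f
    (AlgebraicClosure k))).toEquiv).symm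

theorem card_rootSet_le (f : k[X]) :
    Fintype.card (f.rootSet (AlgebraicClosure k)) ≤ f.natDegree := by
  rw [← Nat.card_eq_fintype_card, Nat.card_coe_set_eq]
  exact ncard_rootSet_le f _

/-- If the odd prime `p` divides the orders of the Galois groups of two polynomials of degree at
most `p + 1`, then a common automorphism permutes the roots of both in one cycle of length `p` and
at most one fixed root. -/
theorem prime_sigma {f g : k[X]} {p : ℕ} (hp : p.Prime) (hodd : Odd p)
    (hf : f.natDegree ≤ p + 1) (hg : g.natDegree ≤ p + 1) (cf : p ∣ Nat.card f.Gal)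
    (cg : p ∣ Nat.card g.Gal) :
    ∃ σ : AlgebraicClosure k ≃ₐ[k] AlgebraicClosure k, OddCycles σ f ∧ OddCycles σ g := by
  haveI : Fact p.Prime := ⟨hp⟩
  obtain ⟨σ, j, h1, h2, h3, h4⟩ := sylow_both
    (MulAction.toPermHom (AlgebraicClosure k ≃ₐ[k] AlgebraicClosure k)
      (f.rootSet (AlgebraicClosure k)))
    (MulAction.toPermHom (AlgebraicClosure k ≃ₐ[k] AlgebraicClosure k)
      (g.rootSet (AlgebraicClosure k))) (p := p)
    (by rw [card_range]; exact cf) (by rw [card_range]; exact cg)
  have cardf := (card_rootSet_le f).trans hf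
  have cardg := (card_rootSet_le g).trans hg
  exact ⟨σ, oddCycles_of (oddCyc_of hodd (prime_cyc hp h1 h2 cardf) cardf),
    oddCycles_of (oddCyc_of hodd (prime_cyc hp h3 h4 cardg) cardg)⟩

end perm

section ext

variable {k : Type} [Field k] {E : Type} [Field E] [Algebra k E] [FiniteDimensional k E]
  [IsGalois k E] {L L' : Type} [Field L] [Field L'] [Algebra k L] [Algebra L L'] [Algebra k L']
  [IsScalarTower k L L'] [IsGalois L L'] [Algebra E L'] [IsScalarTower k E L']

/-- The automorphisms over the part of `M` in `E` come from automorphisms over `L`. -/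
theorem lift_aut (M : IntermediateField k L')
    (hM : ∀ x : L, IsAlgebraic k x → algebraMap L L' x ∈ M) {σ : E ≃ₐ[k] E}
    (hσ : σ ∈ (ME E M).fixingSubgroup) :
    ∃ g : L' ≃ₐ[L] L', ∀ x : E, g (algebraMap E L' x) = algebraMap E L' (σ x) := by
  let ρ : (L' ≃ₐ[L] L') →* (E ≃ₐ[k] E) :=
    (AlgEquiv.restrictNormalHom E).comp (AlgEquiv.restrictScalarsHom k)
  have hρ : ∀ (g : L' ≃ₐ[L] L') (x : E), algebraMap E L' (ρ g x) = g (algebraMap E L' x) := by
    intro g x
    exact AlgEquiv.restrictNormal_commutes (g.restrictScalars k) E x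
  have hle : IntermediateField.fixedField ρ.range ≤ ME E M := by
    intro x hx
    rw [IntermediateField.mem_fixedField_iff] at hx
    rw [mem_ME]
    have h1 : algebraMap E L' x ∈ Set.range (algebraMap L L') := by
      rw [InfiniteGalois.mem_range_algebraMap_iff_fixed]
      intro g
      rw [← hρ, hx _ ⟨g, rfl⟩]
    obtain ⟨y, hy⟩ := h1
    rw [← hy]
    apply hM
    rw [← isAlgebraic_algebraMap_iff (algebraMap L L').injective, hy]
    exact (Algebra.IsAlgebraic.isAlgebraic (R := k) x).algebraMap
  have hmem : σ ∈ ρ.range := by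
    rw [← IntermediateField.fixingSubgroup_fixedField ρ.range]
    exact IntermediateField.fixingSubgroup_le hle hσ
  obtain ⟨g, rfl⟩ := hmem
  exact ⟨g, fun x => (hρ g x).symm⟩

theorem moves {F : k[X]} (hspl : (F.map (algebraMap k E)).Splits) (M : IntermediateField k L')
    (hns : ¬ (F.map (algebraMap k M)).Splits) :
    ∃ h ∈ (ME E M).fixingSubgroup,
      MulAction.toPermHom (E ≃ₐ[k] E) (F.rootSet E) h ≠ 1 := by
  by_contra hall
  push Not at hall
  apply hns
  have h1 : ∀ θ ∈ F.rootSet E, θ ∈ ME E M := by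
    intro θ hθ
    rw [← IsGalois.fixedField_fixingSubgroup (ME E M)]
    rw [IntermediateField.mem_fixedField_iff]
    intro σ hσ
    have h3 := congrArg (fun p : Equiv.Perm (F.rootSet E) => ((p ⟨θ, hθ⟩ : F.rootSet E) : E))
      (hall σ hσ)
    exact h3
  have h4 : (F.map (algebraMap k L')).Splits := by
    rw [IsScalarTower.algebraMap_eq k E L', ← Polynomial.map_map]
    exact hspl.map _
  apply IntermediateField.splits_of_splits h4
  intro x hx
  rw [← hspl.image_rootSet_algebraMap (B := L')] at hx
  obtain ⟨θ, hθ, rfl⟩ := hx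
  exact h1 θ hθ

end ext

section full

/-- Polynomials with full symmetric Galois group over `k`, and an extension `L` of `k` contained in
a normal extension over which they do not split. -/
theorem full_sigma {k : Type} [Field k] [CharZero k] {f g : k[X]} {N r : ℕ} (h5 : 5 ≤ N)
    (hr : Odd r) (hrN : r ≤ N) (hNr : N ≤ r + 1) (df : f.natDegree = N) (dg : g.natDegree = N)
    (sf : f.Separable) (sg : g.Separable) (Ff : FullG f) (Fg : FullG g) (L : Type) [Field L]
    [Algebra k L] (M : IntermediateField k (AlgebraicClosure L)) (hMn : Normal k M)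
    (hM : ∀ x : L, IsAlgebraic k x → algebraMap L (AlgebraicClosure L) x ∈ M)
    (hf : ¬ (f.map (algebraMap k M)).Splits) (hg : ¬ (g.map (algebraMap k M)).Splits) :
    ∃ σ : AlgebraicClosure L ≃ₐ[L] AlgebraicClosure L,
      OddCycles σ (f.map (algebraMap k L)) ∧ OddCycles σ (g.map (algebraMap k L)) := by
  haveI : CharZero L := charZero_of_injective_algebraMap (algebraMap k L).injective
  haveI : IsGalois L (AlgebraicClosure L) := ⟨⟩
  have hfg : f * g ≠ 0 := mul_ne_zero sf.ne_zero sg.ne_zero
  obtain ⟨E, hE⟩ : ∃ E, E = (f * g).SplittingField := ⟨_, rfl⟩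
  haveI : CharZero (f * g).SplittingField := charZero_of_injective_algebraMap
    (algebraMap k (f * g).SplittingField).injective
  haveI : IsGalois k (f * g).SplittingField := ⟨⟩
  have hsp := SplittingField.splits (f * g)
  have hfg' : (f * g).map (algebraMap k (f * g).SplittingField) ≠ 0 :=
    (Polynomial.map_ne_zero_iff (algebraMap k (f * g).SplittingField).injective).2 hfg
  have spf : (f.map (algebraMap k (f * g).SplittingField)).Splits :=
    hsp.of_dvd hfg' (Polynomial.map_dvd _ (dvd_mul_right f g))
  have spg : (g.map (algebraMap k (f * g).SplittingField)).Splits :=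
    hsp.of_dvd hfg' (Polynomial.map_dvd _ (dvd_mul_left g f))
  obtain ⟨i, -⟩ : ∃ i : (f * g).SplittingField →ₐ[k] AlgebraicClosure L, i = i :=
    ⟨IsAlgClosed.lift, rfl⟩
  letI : Algebra (f * g).SplittingField (AlgebraicClosure L) := i.toRingHom.toAlgebra
  haveI : IsScalarTower k (f * g).SplittingField (AlgebraicClosure L) :=
    IsScalarTower.of_algebraMap_eq fun x => (i.commutes x).symm
  have cardf : Fintype.card (f.rootSet (f * g).SplittingField) = N := by
    rw [card_rootSet_eq_natDegree sf spf, df]
  have cardg : Fintype.card (g.rootSet (f * g).SplittingField) = N := by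
    rw [card_rootSet_eq_natDegree sg spg, dg]
  obtain ⟨h, hh, c1, c2⟩ := both_cyc cardf cardg h5 hr hrN hNr (Ff _ spf) (Fg _ spg)
    (ME_normal (E := (f * g).SplittingField) M) (moves spf M hf) (moves spg M hg)
  obtain ⟨σ, hσ⟩ := lift_aut (E := (f * g).SplittingField) (L := L) M hM hh
  have key : ∀ {F : k[X]}, F.Separable → F.natDegree = N →
      (F.map (algebraMap k (f * g).SplittingField)).Splits →
      OddCyc (MulAction.toPermHom ((f * g).SplittingField ≃ₐ[k] (f * g).SplittingField)
        (F.rootSet (f * g).SplittingField) h) →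
      OddCycles σ (F.map (algebraMap k L)) := by
    intro F sF dF spF hc
    obtain ⟨x, y, ⟨m, om, em⟩, ⟨n, on, en⟩, hall⟩ := hc
    have hp : ∀ (i : ℕ) (z : F.rootSet (f * g).SplittingField),
        (σ ^ i) (algebraMap _ (AlgebraicClosure L) (z : (f * g).SplittingField)) =
        algebraMap _ (AlgebraicClosure L)
          ((((MulAction.toPermHom ((f * g).SplittingField ≃ₐ[k] (f * g).SplittingField)
            (F.rootSet (f * g).SplittingField) h) ^ i) z : F.rootSet (f * g).SplittingField) :
              (f * g).SplittingField) := by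
      intro i
      induction i with
      | zero => intro z; rfl
      | succ i ih =>
        intro z
        rw [pow_succ', AlgEquiv.mul_apply, ih, hσ, pow_succ', Equiv.Perm.mul_apply]
        rfl
    have hroots : (F.map (algebraMap k L)).rootSet (AlgebraicClosure L) =
        (algebraMap (f * g).SplittingField (AlgebraicClosure L)) ''
          F.rootSet (f * g).SplittingField := by
      rw [spF.image_rootSet_algebraMap]
      ext z
      rw [mem_rootSet, mem_rootSet, aeval_map_algebraMap]
      exact ⟨fun h => ⟨sF.ne_zero, h.2⟩, fun h => ⟨(sF.map).ne_zero, h.2⟩⟩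
    refine ⟨algebraMap _ _ (x : (f * g).SplittingField), ?_,
      algebraMap _ _ (y : (f * g).SplittingField), ?_, ⟨m, om, ?_⟩, ⟨n, on, ?_⟩, fun z hz => ?_⟩
    · rw [hroots]; exact ⟨x, x.2, rfl⟩
    · rw [hroots]; exact ⟨y, y.2, rfl⟩
    · rw [hp, em]
    · rw [hp, en]
    · rw [hroots] at hz
      obtain ⟨w, hw, rfl⟩ := hz
      obtain ⟨i, h | h⟩ := hall ⟨w, hw⟩
      · refine ⟨i, Or.inl ?_⟩
        rw [hp, ← h]
      · refine ⟨i, Or.inr ?_⟩
        rw [hp, ← h]
  exact ⟨σ, key sf df spf (oddCyc_of hr c1 (by rw [cardf]; exact hNr)),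
    key sg dg spg (oddCyc_of hr c2 (by rw [cardg]; exact hNr))⟩

end full

end Pool.Agent.J4H46.TA
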