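import Pool.Agent.J4H46.TA.Main
import Pool.Agent.J4H46.TA.Fld
import Pool.Agent.X243.Gen.Main
import Pool.Agent.X243.Gen.Three

/-!
Surfaces for which the Galois groups of `b` and `a² - 4 b` are the full symmetric groups, over
extensions of the number field.
-/

set_option autoImplicit false
set_option linter.all false

open Polynomial NumberField IsDedekindDomain Filter Topology WeierstrassCurve
open scoped Classical

namespace Pool.Agent.J4H46.TA

open Pool.Agent.W401.Cheb Pool.Agent.X243.Gen Pool.Agent.X243.Tate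

section ext

variable {k : Type} [Field k] [NumberField k]

/-- The conclusion over the number field `L`. -/
def PosOver (a b : (𝓞 k)[X]) (L : Type) [Field L] [NumberField L] [Algebra k L] : Prop :=
  ∃ δ : ℝ, 0 < δ ∧ ∀ᶠ N : ℕ in atTop,
    δ ≤ dens (GoodPrime (a.map (algebraMap (𝓞 k) (𝓞 L))) (b.map (algebraMap (𝓞 k) (𝓞 L)))) N

theorem map_map_int (f : (𝓞 k)[X]) (L : Type) [Field L] [NumberField L] [Algebra k L] :
    (f.map (algebraMap (𝓞 k) (𝓞 L))).map (algebraMap (𝓞 L) L) =
      (f.map (algebraMap (𝓞 k) k)).map (algebraMap k L) := by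
  rw [Polynomial.map_map, Polynomial.map_map]
  rfl

theorem full_ext {a b : (𝓞 k)[X]} {N n : ℕ} (h5 : 5 ≤ N) (hN : Odd N ∨ N = 4 * n)
    (ha : 2 * a.natDegree ≤ N) (hb : FF N (b.map (algebraMap (𝓞 k) k)))
    (hd : FF N ((a ^ 2 - 4 * b).map (algebraMap (𝓞 k) k))) (L : Type) [Field L] [NumberField L]
    [Algebra k L] (M : IntermediateField k (AlgebraicClosure L)) (hMn : Normal k M)
    (hM : ∀ x : L, algebraMap L (AlgebraicClosure L) x ∈ M)
    (h1 : ¬ ((b.map (algebraMap (𝓞 k) k)).map (algebraMap k M)).Splits)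
    (h2 : ¬ (((a ^ 2 - 4 * b).map (algebraMap (𝓞 k) k)).map (algebraMap k M)).Splits) :
    PosOver a b L := by
  obtain ⟨r, hr, hrN, hNr⟩ : ∃ r, Odd r ∧ r ≤ N ∧ N ≤ r + 1 := by
    rcases hN with hN | hN
    · exact ⟨N, hN, le_rfl, Nat.le_succ N⟩
    · refine ⟨N - 1, ⟨2 * n - 1, by omega⟩, by omega, by omega⟩
  obtain ⟨σ, s1, s2⟩ := full_sigma h5 hr hrN hNr hb.1.2 hd.1.2 hb.2.1 hd.2.1 hb.2.2 hd.2.2 L M hMn
    (fun x _ => hM x) h1 h2
  have injk := FaithfulSMul.algebraMap_injective (𝓞 k) k
  have inj : Function.Injective (algebraMap (𝓞 k) (𝓞 L)) := by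
    have h3 : Function.Injective ((algebraMap (𝓞 L) L).comp (algebraMap (𝓞 k) (𝓞 L))) := by
      have e : (algebraMap (𝓞 L) L).comp (algebraMap (𝓞 k) (𝓞 L)) =
        (algebraMap k L).comp (algebraMap (𝓞 k) k) := rfl
      rw [e]
      exact (algebraMap k L).injective.comp injk
    exact Function.Injective.of_comp (f := algebraMap (𝓞 L) L) h3
  have emap : (a.map (algebraMap (𝓞 k) (𝓞 L))) ^ 2 - 4 * b.map (algebraMap (𝓞 k) (𝓞 L)) =
      (a ^ 2 - 4 * b).map (algebraMap (𝓞 k) (𝓞 L)) := by
    simp only [Polynomial.map_sub, Polynomial.map_mul, Polynomial.map_pow, Polynomial.map_ofNat]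
  have db : b.natDegree = N := by
    rw [← hb.1.2, natDegree_map_eq_of_injective injk]
  have dd : (a ^ 2 - 4 * b).natDegree = N := by
    rw [← hd.1.2, natDegree_map_eq_of_injective injk]
  -- coprime
  have hco : a = 0 ∨ IsCoprime (b.map (algebraMap (𝓞 k) k))
      ((a ^ 2 - 4 * b).map (algebraMap (𝓞 k) k)) := by
    by_cases h0 : a = 0
    · exact Or.inl h0
    · right
      rw [hb.1.1.coprime_iff_not_dvd]
      intro h
      have h3 : b.map (algebraMap (𝓞 k) k) ∣ (a.map (algebraMap (𝓞 k) k)) ^ 2 := by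
        have e : (a.map (algebraMap (𝓞 k) k)) ^ 2 = (a ^ 2 - 4 * b).map (algebraMap (𝓞 k) k) +
            4 * b.map (algebraMap (𝓞 k) k) := by
          simp only [Polynomial.map_sub, Polynomial.map_mul, Polynomial.map_pow,
            Polynomial.map_ofNat]
          ring
        rw [e]
        exact dvd_add h (dvd_mul_left _ _)
      have h4 := natDegree_le_of_dvd (hb.1.1.prime.dvd_of_dvd_pow h3)
        ((Polynomial.map_ne_zero_iff injk).2 h0)
      rw [hb.1.2, natDegree_map_eq_of_injective injk] at h4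
      omega
  obtain ⟨n', hn', hb', hd'⟩ : ∃ n' : ℕ, a.natDegree ≤ 2 * n' ∧ (Odd N ∨ N = 4 * n') ∧
      (Odd N ∨ N = 4 * n') := by
    rcases hN with hN | hN
    · exact ⟨a.natDegree, by omega, Or.inl hN, Or.inl hN⟩
    · exact ⟨n, by omega, Or.inr hN, Or.inr hN⟩
  refine criterion (k := L) (n := n') (natDegree_map_le.trans hn') ?_ ?_ ?_ ?_ ?_ (σ := σ) ?_ ?_
  · rw [natDegree_map_eq_of_injective inj, db]; exact hb'
  · rw [emap, natDegree_map_eq_of_injective inj, dd]; exact hd'
  · rw [map_map_int]; exact hb.2.1.map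
  · rw [emap, map_map_int]; exact hd.2.1.map
  · rcases hco with h0 | hco
    · left; rw [h0, Polynomial.map_zero]
    · right
      rw [emap, map_map_int, map_map_int]
      exact hco.map (mapRingHom (algebraMap k L))
  · rw [map_map_int]; exact s1
  · rw [emap, map_map_int]; exact s2

theorem solv_ext {a b : (𝓞 k)[X]} {N n : ℕ} (h5 : 5 ≤ N) (hN : Odd N ∨ N = 4 * n)
    (ha : 2 * a.natDegree ≤ N) (hb : FF N (b.map (algebraMap (𝓞 k) k)))
    (hd : FF N ((a ^ 2 - 4 * b).map (algebraMap (𝓞 k) k))) (L : Type) [Field L] [NumberField L]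
    [Algebra k L] (hL : ∀ x : L, Group.IsSolvable (minpoly k x).Gal) :
    PosOver a b L := by
  haveI : CharZero (AlgebraicClosure L) :=
    charZero_of_injective_algebraMap (algebraMap L (AlgebraicClosure L)).injective
  haveI : Algebra.IsAlgebraic k L := by
    haveI : CharZero k := inferInstance
    haveI : Module.Finite k L := Module.Finite.of_restrictScalars_finite ℚ k L
    infer_instance
  refine full_ext h5 hN ha hb hd L (solvM k (AlgebraicClosure L)) (solvM_normal _) (fun x => ?_)
    (solvM_not_splits _ hb.2.1 (by rw [hb.1.2]; exact h5) hb.2.2)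
    (solvM_not_splits _ hd.2.1 (by rw [hd.1.2]; exact h5) hd.2.2)
  exact mem_solvM (Algebra.IsSeparable.isSeparable k x) (hL x)

/-- The extensions of degree less than `N`. -/
theorem small_not_splits {F : k[X]} {N : ℕ} (hN2 : 2 ≤ N) (hF : F.Separable) (dF : F.natDegree = N)
    (hfull : FullG F) {Ω : Type} [Field Ω] [Algebra k Ω] [IsAlgClosed Ω] {g : k[X]}
    (hg : g.natDegree < N) :
    ¬ (F.map (algebraMap k (IntermediateField.adjoin k (g.rootSet Ω)))).Splits := by
  intro hspl
  haveI := IntermediateField.adjoin_rootSet_isSplittingField (K := k) (L := Ω) (p := g)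
    (IsAlgClosed.splits _)
  haveI : FiniteDimensional k (IntermediateField.adjoin k (g.rootSet Ω)) :=
    IsSplittingField.finiteDimensional _ g
  haveI : Normal k (IntermediateField.adjoin k (g.rootSet Ω)) := Normal.of_isSplittingField g
  haveI : IsGalois k (IntermediateField.adjoin k (g.rootSet Ω)) := ⟨⟩
  have h1 := hfull (IntermediateField.adjoin k (g.rootSet Ω)) hspl
  have h2 := Nat.card_le_card_of_surjective _ h1
  rw [Nat.card_perm, Nat.card_eq_fintype_card, card_rootSet_eq_natDegree hF hspl, dF] at h2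
  have h3 : Nat.card (IntermediateField.adjoin k (g.rootSet Ω) ≃ₐ[k]
      IntermediateField.adjoin k (g.rootSet Ω)) ≤ g.natDegree.factorial := by
    obtain ⟨e⟩ : Nonempty (IntermediateField.adjoin k (g.rootSet Ω) ≃ₐ[k] g.SplittingField) :=
      ⟨IsSplittingField.algEquiv _ g⟩
    have h4 : Nat.card (IntermediateField.adjoin k (g.rootSet Ω) ≃ₐ[k]
      IntermediateField.adjoin k (g.rootSet Ω)) = Nat.card g.Gal :=
      Nat.card_congr (AlgEquiv.autCongr e).toEquiv
    rw [h4]
    haveI : Fact ((g.map (algebraMap k g.SplittingField)).Splits) := ⟨SplittingField.splits g⟩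
    have h5 := Nat.card_le_card_of_injective _ (Gal.galActionHom_injective g g.SplittingField)
    rw [Nat.card_perm] at h5
    refine h5.trans (Nat.factorial_le ?_)
    rw [Nat.card_coe_set_eq]
    exact ncard_rootSet_le g _
  have h4 : N.factorial ≤ g.natDegree.factorial := h2.trans h3
  have h5 : g.natDegree.factorial < N.factorial := by
    by_cases h0 : g.natDegree = 0
    · rw [h0, Nat.factorial_zero]
      exact Nat.one_lt_factorial.2 (by omega)
    · exact (Nat.factorial_lt (Nat.pos_of_ne_zero h0)).2 hg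
  omega

theorem small_ext {a b : (𝓞 k)[X]} {N n : ℕ} (h5 : 5 ≤ N) (hN : Odd N ∨ N = 4 * n)
    (ha : 2 * a.natDegree ≤ N) (hb : FF N (b.map (algebraMap (𝓞 k) k)))
    (hd : FF N ((a ^ 2 - 4 * b).map (algebraMap (𝓞 k) k))) (L : Type) [Field L] [NumberField L]
    [Algebra k L] (hL : Module.finrank k L < N) : PosOver a b L := by
  haveI : CharZero (AlgebraicClosure L) :=
    charZero_of_injective_algebraMap (algebraMap L (AlgebraicClosure L)).injective
  haveI : Module.Finite k L := Module.Finite.of_restrictScalars_finite ℚ k L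
  obtain ⟨α, hα⟩ := Field.exists_primitive_element k L
  obtain ⟨g, hg⟩ : ∃ g, g = minpoly k α := ⟨_, rfl⟩
  have hgd : g.natDegree < N := by
    rw [hg, (Field.primitive_element_iff_minpoly_natDegree_eq k α).1 hα]
    exact hL
  haveI : IsAlgClosed (AlgebraicClosure L) := inferInstance
  haveI := IntermediateField.adjoin_rootSet_isSplittingField (K := k) (L := AlgebraicClosure L)
    (p := g) (IsAlgClosed.splits _)
  refine full_ext h5 hN ha hb hd L
    (IntermediateField.adjoin k (g.rootSet (AlgebraicClosure L))) (Normal.of_isSplittingField g)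
    (fun x => ?_)
    (small_not_splits (by omega) hb.2.1 hb.1.2 hb.2.2 hgd)
    (small_not_splits (by omega) hd.2.1 hd.1.2 hd.2.2 hgd)
  have h1 : x ∈ IntermediateField.adjoin k {α} := by
    rw [hα]; exact IntermediateField.mem_top
  have h2 : IsScalarTower.toAlgHom k L (AlgebraicClosure L) x ∈
      (IntermediateField.adjoin k {α}).map (IsScalarTower.toAlgHom k L (AlgebraicClosure L)) :=
    ⟨x, h1, rfl⟩
  rw [IntermediateField.adjoin_map, Set.image_singleton] at h2
  refine IntermediateField.adjoin.mono k _ _ ?_ h2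
  rintro _ rfl
  rw [mem_rootSet, hg]
  refine ⟨minpoly.ne_zero (Algebra.IsIntegral.isIntegral α), ?_⟩
  rw [aeval_algHom_apply, minpoly.aeval, map_zero]

end ext

end Pool.Agent.J4H46.TA
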