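import Pool.Agent.J4H46.TA.Loc

/-!
Factorization over a finite field and the orbits of the Frobenius map on the roots.
-/

set_option autoImplicit false
set_option linter.all false

open Polynomial
open scoped Classical

namespace Pool.Agent.J4H46.TA

section ff

variable {κ Ω : Type} [Field κ] [Finite κ] [Field Ω] [Algebra κ Ω]

theorem frob_root {p : κ[X]} {x : Ω} (hx : aeval x p = 0) (r : ℕ) :
    aeval (x ^ (Nat.card κ ^ r)) p = 0 := by
  haveI := Fintype.ofFinite κ
  induction r with
  | zero => rw [pow_zero, pow_one]; exact hx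
  | succ r ih =>
    have e : x ^ (Nat.card κ ^ (r + 1)) =
        FiniteField.frobeniusAlgHom κ Ω (x ^ (Nat.card κ ^ r)) := by
      rw [FiniteField.frobeniusAlgHom_apply, ← pow_mul, pow_succ, Nat.card_eq_fintype_card]
    rw [e, aeval_algHom_apply, ih, map_zero]

/-- A separable polynomial whose roots form at most two orbits, of odd length. -/
theorem split_of_orbits {f : κ[X]} (sf : f.Separable)
    (hsp : (f.map (algebraMap κ Ω)).Splits) {x y : Ω}
    (hx : aeval x f = 0) (hy : aeval y f = 0) {i j : ℕ} (oi : Odd i) (oj : Odd j)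
    (ex : x ^ (Nat.card κ ^ i) = x) (ey : y ^ (Nat.card κ ^ j) = y)
    (hall : ∀ z : Ω, aeval z f = 0 → ∃ r : ℕ, z = x ^ (Nat.card κ ^ r) ∨
      z = y ^ (Nat.card κ ^ r)) :
    (Odd f.natDegree → OneOddFac f) ∧ (Even f.natDegree → TwoOddFac f) := by
  have hf0 : f ≠ 0 := sf.ne_zero
  have key : ∀ {x : Ω} {i : ℕ}, aeval x f = 0 → Odd i → x ^ (Nat.card κ ^ i) = x →
      Irreducible (minpoly κ x) ∧ (minpoly κ x).Monic ∧ minpoly κ x ∣ f ∧
        Odd (minpoly κ x).natDegree := by
    intro x i hx oi ex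
    have hint : IsIntegral κ x := isAlgebraic_iff_isIntegral.1 ⟨f, hf0, hx⟩
    have hirr := minpoly.irreducible hint
    refine ⟨hirr, minpoly.monic hint, minpoly.dvd κ x hx, ?_⟩
    refine Odd.of_dvd_nat oi (hirr.natDegree_dvd_of_dvd_X_pow_card_pow_sub_X ?_)
    apply minpoly.dvd
    rw [map_sub, map_pow, aeval_X, ex, sub_self]
  obtain ⟨ip, mp, dp, op⟩ := key hx oi ex
  obtain ⟨iq, mq, dq, oq⟩ := key hy oj ey
  obtain ⟨p, hp⟩ : ∃ p, p = minpoly κ x := ⟨_, rfl⟩
  obtain ⟨q, hq⟩ : ∃ q, q = minpoly κ y := ⟨_, rfl⟩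
  have hpx : aeval x p = 0 := by rw [hp]; exact minpoly.aeval κ x
  have hqy : aeval y q = 0 := by rw [hq]; exact minpoly.aeval κ y
  rw [← hp] at ip mp dp op
  rw [← hq] at iq mq dq oq
  have hroot : ∀ z : Ω, aeval z f = 0 → aeval z p = 0 ∨ aeval z q = 0 := by
    intro z hz
    obtain ⟨r, h | h⟩ := hall z hz
    · left; rw [h]; exact frob_root hpx r
    · right; rw [h]; exact frob_root hqy r
  have hcard : (f.rootSet Ω).ncard = f.natDegree := by
    rw [← Nat.card_coe_set_eq, Nat.card_eq_fintype_card, card_rootSet_eq_natDegree sf hsp]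
  have hle : ∀ g : κ[X], (g.rootSet Ω).ncard ≤ g.natDegree := by
    intro g
    exact ncard_rootSet_le g Ω
  by_cases hne : p = q
  · have h1 : f.rootSet Ω ⊆ p.rootSet Ω := by
      intro z hz
      rw [mem_rootSet] at hz ⊢
      refine ⟨mp.ne_zero, ?_⟩
      rcases hroot z hz.2 with h | h
      · exact h
      · rw [hne]; exact h
    have h2 := Set.ncard_le_ncard h1 (Set.toFinite _)
    rw [hcard] at h2
    have h3 : f.natDegree = p.natDegree :=
      le_antisymm (h2.trans (hle p)) (natDegree_le_of_dvd dp hf0)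
    refine ⟨fun _ => ?_, fun hN => ?_⟩
    · obtain ⟨g, hg⟩ := dp
      have hg0 : g ≠ 0 := by
        rintro rfl
        exact hf0 (by rw [hg, mul_zero])
      have hdeg : f.natDegree = p.natDegree + g.natDegree := by
        rw [hg, natDegree_mul mp.ne_zero hg0]
      have hg1 : g.natDegree = 0 := by omega
      have hgC := eq_C_of_natDegree_eq_zero hg1
      refine ⟨g.coeff 0, p, ?_, mp, ip, op, ?_⟩
      · intro h0
        apply hg0
        rw [hgC, h0, C_0]
      · rw [← hgC, hg]; ring
    · exfalso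
      rw [h3] at hN
      exact (Nat.not_even_iff_odd.2 op) hN
  · have hco : IsCoprime p q := (ip.coprime_iff_not_dvd).2 (not_dvd_of mp mq ip iq hne)
    obtain ⟨g, hg⟩ := hco.mul_dvd dp dq
    have hg0 : g ≠ 0 := by
      rintro rfl
      exact hf0 (by rw [hg, mul_zero])
    have hdeg : f.natDegree = p.natDegree + q.natDegree + g.natDegree := by
      rw [hg, natDegree_mul (mul_ne_zero mp.ne_zero mq.ne_zero) hg0,
        natDegree_mul mp.ne_zero mq.ne_zero]
    have h1 : f.rootSet Ω ⊆ p.rootSet Ω ∪ q.rootSet Ω := by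
      intro z hz
      rw [mem_rootSet] at hz
      rcases hroot z hz.2 with h | h
      · exact Or.inl (mem_rootSet.2 ⟨mp.ne_zero, h⟩)
      · exact Or.inr (mem_rootSet.2 ⟨mq.ne_zero, h⟩)
    have h2 := (Set.ncard_le_ncard h1 (Set.toFinite _)).trans (Set.ncard_union_le _ _)
    rw [hcard] at h2
    have h3 := hle p
    have h4 := hle q
    have hg1 : g.natDegree = 0 := by omega
    have hgC := eq_C_of_natDegree_eq_zero hg1
    have hres : TwoOddFac f := by
      refine ⟨g.coeff 0, p, q, ?_, mp, mq, ip, iq, op, oq, hne, ?_⟩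
      · intro h0
        apply hg0
        rw [hgC, h0, C_0]
      · rw [← hgC, hg]; ring
    refine ⟨fun hN => ?_, fun _ => hres⟩
    exfalso
    have h5 : f.natDegree = p.natDegree + q.natDegree := by omega
    rw [h5] at hN
    exact (Nat.not_odd_iff_even.2 (op.add_odd oq)) hN

end ff

end Pool.Agent.J4H46.TA
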