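import Mathlib

/-!
Permutation groups: simultaneous cycles of odd length.
-/

set_option autoImplicit false
set_option linter.all false

open scoped Classical Nat
open Equiv Equiv.Perm

namespace Pool.Agent.J4H46.TA

section cyc

variable {X : Type} [Fintype X]

/-- At most two orbits, of odd length. -/
def OddCyc (π : Perm X) : Prop :=
  ∃ x y : X, (∃ m : ℕ, Odd m ∧ (π ^ m) x = x) ∧ (∃ n : ℕ, Odd n ∧ (π ^ n) y = y) ∧
    ∀ z, ∃ i : ℕ, z = (π ^ i) x ∨ z = (π ^ i) y

theorem oddCyc_of {π : Perm X} {r : ℕ} (hr : Odd r) (h : π.cycleType = {r})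
    (hX : Fintype.card X ≤ r + 1) : OddCyc π := by
  have h1 : orderOf π = r := by rw [← lcm_cycleType, h]; simp
  have hpow : ∀ x, (π ^ r) x = x := by
    intro x
    rw [← h1, pow_orderOf_eq_one]; rfl
  have hcyc : π.IsCycle := by rw [← card_cycleType_eq_one, h]; simp
  have hsupp : π.support.card = r := by rw [← sum_cycleType, h]; simp
  obtain ⟨x, hx, -⟩ := id hcyc
  by_cases hy : ∃ y, π y = y
  · obtain ⟨y, hy⟩ := hy
    refine ⟨x, y, ⟨r, hr, hpow x⟩, ⟨r, hr, hpow y⟩, fun z => ?_⟩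
    by_cases hz : π z = z
    · refine ⟨0, Or.inr ?_⟩
      have hc : (π.supportᶜ).card ≤ 1 := by
        rw [Finset.card_compl, hsupp]
        omega
      have := Finset.card_le_one.1 hc z (by simp [hz]) y (by simp [hy])
      exact this
    · obtain ⟨i, hi⟩ := hcyc.exists_pow_eq hx hz
      exact ⟨i, Or.inl hi.symm⟩
  · refine ⟨x, x, ⟨r, hr, hpow x⟩, ⟨r, hr, hpow x⟩, fun z => ?_⟩
    obtain ⟨i, hi⟩ := hcyc.exists_pow_eq hx (fun h => hy ⟨z, h⟩)
    exact ⟨i, Or.inl hi.symm⟩

theorem prime_cyc {π : Perm X} {p j : ℕ} (hp : p.Prime) (h1 : π ^ (p ^ j) = 1) (h : π ≠ 1)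
    (hX : Fintype.card X ≤ p + 1) : π.cycleType = {p} := by
  have h2 : ∀ n ∈ π.cycleType, n = p := by
    intro n hn
    have h3 : n ∣ p ^ j := (dvd_of_mem_cycleType hn).trans (orderOf_dvd_of_pow_eq_one h1)
    obtain ⟨i, -, rfl⟩ := (Nat.dvd_prime_pow hp).1 h3
    have h4 : 2 ≤ p ^ i := two_le_of_mem_cycleType hn
    have h5 : p ^ i ≤ Fintype.card X := (Multiset.le_sum_of_mem hn).trans (sum_cycleType_le π)
    have h6 := hp.two_le
    have h7 : i < 2 := by
      by_contra hi
      push Not at hi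
      have h8 : p ^ 2 ≤ p ^ i := Nat.pow_le_pow_right hp.pos hi
      nlinarith
    interval_cases i
    · rw [pow_zero] at h4; omega
    · exact pow_one p
  have h3 := Multiset.eq_replicate_card.2 h2
  have h4 : Multiset.card π.cycleType * p ≤ p + 1 := by
    have h5 := (sum_cycleType_le π).trans hX
    rw [h3, Multiset.sum_replicate, smul_eq_mul] at h5
    exact h5
  have h5 : Multiset.card π.cycleType ≠ 0 := by
    intro h0
    apply h
    rw [Multiset.card_eq_zero] at h0
    exact cycleType_eq_zero.1 h0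
  have h6 := hp.two_le
  have h7 : Multiset.card π.cycleType = 1 := by
    have : Multiset.card π.cycleType < 2 := by
      by_contra hc
      push Not at hc
      nlinarith
    omega
  rw [h3, h7]
  rfl

end cyc

section sylow

/-- Simultaneous elements of `p`-power order. -/
theorem sylow_both {G X Y : Type} [Group G] [Finite X] [Finite Y] (α : G →* Perm X)
    (β : G →* Perm Y) {p : ℕ} [hp : Fact p.Prime] (hα : p ∣ Nat.card α.range)
    (hβ : p ∣ Nat.card β.range) :
    ∃ (g : G) (j : ℕ), α g ^ (p ^ j) = 1 ∧ α g ≠ 1 ∧ β g ^ (p ^ j) = 1 ∧ β g ≠ 1 := by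
  obtain ⟨a, ha⟩ : ∃ a : (α.prod β).range →* Perm X,
      a = (MonoidHom.fst _ _).comp (α.prod β).range.subtype := ⟨_, rfl⟩
  obtain ⟨b, hb⟩ : ∃ b : (α.prod β).range →* Perm Y,
      b = (MonoidHom.snd _ _).comp (α.prod β).range.subtype := ⟨_, rfl⟩
  have ra : a.range = α.range := by
    ext x
    constructor
    · rintro ⟨⟨_, g, rfl⟩, rfl⟩
      exact ⟨g, by rw [ha]; rfl⟩
    · rintro ⟨g, rfl⟩
      exact ⟨⟨_, g, rfl⟩, by rw [ha]; rfl⟩
  have rb : b.range = β.range := by
    ext x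
    constructor
    · rintro ⟨⟨_, g, rfl⟩, rfl⟩
      exact ⟨g, by rw [hb]; rfl⟩
    · rintro ⟨g, rfl⟩
      exact ⟨⟨_, g, rfl⟩, by rw [hb]; rfl⟩
  obtain ⟨P⟩ : Nonempty (Sylow p (α.prod β).range) := inferInstance
  have key : ∀ {Z : Type} [Finite Z] (c : (α.prod β).range →* Perm Z),
      p ∣ Nat.card c.range → ∃ g ∈ P, c g ≠ 1 := by
    intro Z _ c hc
    by_contra hall
    push Not at hall
    have h1 : (P : Subgroup (α.prod β).range) ≤ c.ker := fun g hg => hall g hg
    have h2 := Subgroup.index_dvd_of_le h1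
    rw [Subgroup.index_ker] at h2
    exact P.not_dvd_index (hc.trans h2)
  obtain ⟨g1, m1, e1⟩ := key a (by rw [ra]; exact hα)
  obtain ⟨g2, m2, e2⟩ := key b (by rw [rb]; exact hβ)
  obtain ⟨g, mg, ga, gb⟩ : ∃ g ∈ P, a g ≠ 1 ∧ b g ≠ 1 := by
    by_cases h1 : b g1 = 1
    · by_cases h2 : a g2 = 1
      · refine ⟨g1 * g2, mul_mem m1 m2, ?_, ?_⟩
        · rw [map_mul, h2, mul_one]; exact e1
        · rw [map_mul, h1, one_mul]; exact e2
      · exact ⟨g2, m2, h2, e2⟩
    · exact ⟨g1, m1, e1, h1⟩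
  obtain ⟨j, hj⟩ := P.isPGroup' ⟨g, mg⟩
  have hj' : g ^ (p ^ j) = 1 := congrArg Subtype.val hj
  obtain ⟨γ, hγ⟩ := g.2
  have eα : α γ = a g := by
    rw [ha]
    show α γ = (g : Perm X × Perm Y).1
    rw [← hγ]; rfl
  have eβ : β γ = b g := by
    rw [hb]
    show β γ = (g : Perm X × Perm Y).2
    rw [← hγ]; rfl
  refine ⟨γ, j, ?_, ?_, ?_, ?_⟩
  · rw [eα, ← map_pow, hj', map_one]
  · rw [eα]; exact ga
  · rw [eβ, ← map_pow, hj', map_one]
  · rw [eβ]; exact gb

end sylow

section gours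

theorem mset {m : Multiset ℕ} (h : ∀ n ∈ m, 3 ≤ n) :
    m = 0 ∨ (∃ a, m = {a}) ∨ m.sum + 3 ≤ m.prod := by
  induction m using Multiset.induction with
  | empty => exact Or.inl rfl
  | cons a s ih =>
    right
    have ha : 3 ≤ a := h a (Multiset.mem_cons_self a s)
    rcases ih (fun n hn => h n (Multiset.mem_cons_of_mem hn)) with h1 | ⟨b, h1⟩ | h1
    · left
      exact ⟨a, by rw [h1]; rfl⟩
    · right
      have hb : 3 ≤ b := h b (by rw [h1]; simp)
      rw [h1, Multiset.sum_cons, Multiset.prod_cons, Multiset.sum_singleton,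
        Multiset.prod_singleton]
      nlinarith
    · right
      rw [Multiset.sum_cons, Multiset.prod_cons]
      have h6 : a * (s.sum + 3) ≤ a * s.prod := Nat.mul_le_mul_left a h1
      nlinarith [Nat.zero_le s.sum]

theorem cyc_transfer {Y : Type} [Fintype Y] {N r : ℕ} (hY : Fintype.card Y = N) (h5 : 5 ≤ N)
    (hr : Odd r) (hrN : r ≤ N) (hNr : N ≤ r + 1) {π : Perm Y} (ho : orderOf π = r)
    (hc : Nat.card (Subgroup.centralizer {π}) ≤ 2 * r) : π.cycleType = {r} := by
  rw [nat_card_centralizer, hY] at hc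
  have hodd : ∀ n ∈ π.cycleType, Odd n := by
    intro n hn
    exact Odd.of_dvd_nat hr (ho ▸ dvd_of_mem_cycleType hn)
  have h3 : ∀ n ∈ π.cycleType, 3 ≤ n := by
    intro n hn
    have h1 := two_le_of_mem_cycleType hn
    obtain ⟨c, hc⟩ := hodd n hn
    omega
  have hPodd : Odd π.cycleType.prod := by
    have : ∀ m : Multiset ℕ, (∀ n ∈ m, Odd n) → Odd m.prod := by
      intro m
      induction m using Multiset.induction with
      | empty => intro _; exact odd_one
      | cons a s ih =>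
        intro h
        rw [Multiset.prod_cons]
        exact (h a (Multiset.mem_cons_self a s)).mul
          (ih fun n hn => h n (Multiset.mem_cons_of_mem hn))
    exact this _ hodd
  have hdvd : r ∣ π.cycleType.prod := by
    rw [← ho, ← lcm_cycleType, Multiset.lcm_dvd]
    intro b hb
    exact Multiset.dvd_prod hb
  obtain ⟨t, ht⟩ := hdvd
  have htodd : Odd t := by
    rw [ht] at hPodd
    exact (Nat.odd_mul.1 hPodd).2
  have hM : 1 ≤ ∏ n ∈ π.cycleType.toFinset, (π.cycleType.count n)! :=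
    Finset.one_le_prod' fun n _ => Nat.one_le_iff_ne_zero.2 (Nat.factorial_ne_zero _)
  obtain ⟨M, hMd⟩ : ∃ M, M = ∏ n ∈ π.cycleType.toFinset, (π.cycleType.count n)! := ⟨_, rfl⟩
  obtain ⟨s, hs⟩ : ∃ s, s = π.cycleType.sum := ⟨_, rfl⟩
  have hF : 1 ≤ (N - s)! := Nat.one_le_iff_ne_zero.2 (Nat.factorial_ne_zero _)
  rw [← hMd, ← hs, ht] at hc
  rw [← hMd] at hM
  have hr0 : 0 < r := hr.pos
  have hc' : (N - s)! * t * M ≤ 2 := by
    have : r * ((N - s)! * t * M) ≤ r * 2 := by
      calc r * ((N - s)! * t * M) = (N - s)! * (r * t) * M := by ring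
        _ ≤ 2 * r := hc
        _ = r * 2 := by ring
    exact Nat.le_of_mul_le_mul_left this hr0
  have ht0 : 0 < t := htodd.pos
  have ht2 : t ≤ 2 := by
    have h6 : t ≤ (N - s)! * t := Nat.le_mul_of_pos_left t hF
    have h7 : (N - s)! * t ≤ (N - s)! * t * M := Nat.le_mul_of_pos_right _ hM
    omega
  have ht1 : t = 1 := by
    obtain ⟨c, hc⟩ := htodd
    omega
  have hN2 : N - s ≤ 2 := by
    by_contra h6
    push Not at h6
    have h7 : 3 ! ≤ (N - s)! := Nat.factorial_le h6
    have h8 : (3 : ℕ)! = 6 := rfl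
    have h9 : (N - s)! ≤ (N - s)! * t := Nat.le_mul_of_pos_right _ ht0
    have h10 : (N - s)! * t ≤ (N - s)! * t * M := Nat.le_mul_of_pos_right _ hM
    omega
  rw [ht1, mul_one] at ht
  rcases mset h3 with h6 | ⟨a, h6⟩ | h6
  · rw [h6, Multiset.prod_zero] at ht
    omega
  · rw [h6, Multiset.prod_singleton] at ht
    rw [h6, ht]
  · rw [ht, ← hs] at h6
    omega

theorem cent_of_cyc {X : Type} [Fintype X] {r : ℕ} (hX : Fintype.card X ≤ r + 1) {π : Perm X}
    (h : π.cycleType = {r}) : Nat.card (Subgroup.centralizer {π}) = r := by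
  rw [nat_card_centralizer, h]
  simp only [Multiset.sum_singleton, Multiset.prod_singleton, Multiset.toFinset_singleton,
    Finset.prod_singleton, Multiset.count_singleton_self, Nat.factorial_one, mul_one]
  have : (Fintype.card X - r)! = 1 := by
    have h1 : Fintype.card X - r ≤ 1 := by omega
    interval_cases h2 : (Fintype.card X - r) <;> rfl
  rw [this, one_mul]

theorem exists_odd_cyc {X : Type} [Fintype X] {N r : ℕ} (hX : Fintype.card X = N) (h5 : 5 ≤ N)
    (hr : Odd r) (hrN : r ≤ N) (hNr : N ≤ r + 1) :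
    ∃ c ∈ alternatingGroup X, c.cycleType = {r} := by
  obtain ⟨c, hc⟩ := (exists_with_cycleType_iff (m := {r}) (α := X)).2
    ⟨by rw [Multiset.sum_singleton, hX]; exact hrN, fun a ha => by
      rw [Multiset.mem_singleton] at ha
      omega⟩
  refine ⟨c, ?_, hc⟩
  rw [mem_alternatingGroup, sign_of_cycleType, hc, Multiset.sum_singleton,
    Multiset.card_singleton]
  exact Even.neg_one_pow (hr.add_odd odd_one)

theorem half_card {Y : Type} [Fintype Y] (C : Subgroup (Perm Y)) :
    Nat.card C ≤ 2 * Nat.card (C ⊓ alternatingGroup Y : Subgroup (Perm Y)) := by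
  obtain ⟨f, hf⟩ : ∃ f : C →* ℤˣ, f = (sign (α := Y)).comp C.subtype := ⟨_, rfl⟩
  have h1 : Nat.card C = Nat.card f.ker * f.ker.index := (Subgroup.card_mul_index _).symm
  have h2 : f.ker.index ≤ 2 := by
    rw [Subgroup.index_ker]
    have h3 := Nat.card_le_card_of_injective (Subgroup.subtype f.range)
      (Subgroup.subtype_injective _)
    have h4 : Nat.card ℤˣ = 2 := by simp
    omega
  have h3 : Nat.card f.ker ≤ Nat.card (C ⊓ alternatingGroup Y : Subgroup (Perm Y)) := by
    refine Nat.card_le_card_of_injective (fun x => ⟨((x : C) : Perm Y), (x : C).2, ?_⟩) ?_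
    · have h5 : f (x : C) = 1 := x.2
      have h6 : f (x : C) = sign ((x : C) : Perm Y) := congrFun (congrArg DFunLike.coe hf) _
      exact h6.symm.trans h5
    · intro x y hxy
      have h6 : ((x : C) : Perm Y) = ((y : C) : Perm Y) :=
        congrArg (fun z : (C ⊓ alternatingGroup Y : Subgroup (Perm Y)) => (z : Perm Y)) hxy
      exact Subtype.ext (Subtype.ext h6)
  rw [h1]
  calc Nat.card f.ker * f.ker.index ≤
      Nat.card (C ⊓ alternatingGroup Y : Subgroup (Perm Y)) * 2 := Nat.mul_le_mul h3 h2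
    _ = _ := by ring

/-- If `α`, `β` are onto the symmetric groups and the normal subgroup `H` acts nontrivially on both
sets, then `H` has an element which is a cycle of length `r`, the odd one of the numbers `N - 1`
and `N`, on both sets. -/
theorem both_cyc {G X Y : Type} [Group G] [Fintype X] [Fintype Y] {N r : ℕ}
    (hX : Fintype.card X = N) (hY : Fintype.card Y = N) (h5 : 5 ≤ N) (hr : Odd r) (hrN : r ≤ N)
    (hNr : N ≤ r + 1) {α : G →* Perm X} {β : G →* Perm Y} (sα : Function.Surjective α)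
    (sβ : Function.Surjective β) {H : Subgroup G} (hH : H.Normal) (h1 : ∃ h ∈ H, α h ≠ 1)
    (h2 : ∃ h ∈ H, β h ≠ 1) :
    ∃ h ∈ H, (α h).cycleType = {r} ∧ (β h).cycleType = {r} := by
  have alt : ∀ {Z : Type} [Fintype Z] (hZ : Fintype.card Z = N) {γ : G →* Perm Z}
      (sγ : Function.Surjective γ) {K : Subgroup G} (hK : K.Normal), (∃ h ∈ K, γ h ≠ 1) →
      ∀ c ∈ alternatingGroup Z, ∃ h ∈ K, γ h = c := by
    intro Z _ hZ γ sγ K hK hne c hc
    haveI : (K.map γ).Normal := hK.map _ sγ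
    have hnt : Nontrivial (K.map γ) := by
      rw [Subgroup.nontrivial_iff_ne_bot]
      intro hbot
      obtain ⟨h, hh, hh'⟩ := hne
      apply hh'
      rw [← Subgroup.mem_bot, ← hbot]
      exact ⟨h, hh, rfl⟩
    exact alternatingGroup_le_of_normal (by rw [Nat.card_eq_fintype_card, hZ]; exact h5) hnt hc
  obtain ⟨c, cA, hc⟩ := exists_odd_cyc hX h5 hr hrN hNr
  obtain ⟨c', cA', hc'⟩ := exists_odd_cyc hY h5 hr hrN hNr
  have sq_alt : ∀ {Z : Type} [Fintype Z] (π : Perm Z), π * π ∈ alternatingGroup Z := by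
    intro Z _ π
    rw [mem_alternatingGroup, Perm.sign_mul, Int.units_mul_self]
  have ord : ∀ {Z : Type} [Fintype Z] {π : Perm Z}, π.cycleType = {r} → orderOf π = r := by
    intro Z _ π h
    rw [← lcm_cycleType, h]; simp
  have nsq : ∀ {Z : Type} [Fintype Z] {π : Perm Z}, π.cycleType = {r} → π * π ≠ 1 := by
    intro Z _ π h h'
    have h3 := ord h
    have h4 : orderOf π ∣ 2 := orderOf_dvd_of_pow_eq_one (by rw [pow_two]; exact h')
    rw [h3] at h4
    have := Nat.le_of_dvd two_pos h4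
    omega
  by_cases hA : ∃ h ∈ H ⊓ β.ker, α h ≠ 1
  · by_cases hB : ∃ h ∈ H ⊓ α.ker, β h ≠ 1
    · obtain ⟨x, hx, ex⟩ := alt hX sα (K := H ⊓ β.ker) inferInstance hA c cA
      obtain ⟨y, hy, ey⟩ := alt hY sβ (K := H ⊓ α.ker) inferInstance hB c' cA'
      refine ⟨x * y, mul_mem hx.1 hy.1, ?_, ?_⟩
      · rw [map_mul, ex, MonoidHom.mem_ker.1 hy.2, mul_one]; exact hc
      · rw [map_mul, ey, MonoidHom.mem_ker.1 hx.2, one_mul]; exact hc'
    · exfalso
      push Not at hB
      obtain ⟨h, hh, eh⟩ := alt hY sβ hH h2 c' cA'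
      obtain ⟨κ, hκ, eκ⟩ := alt hX sα (K := H ⊓ β.ker) inferInstance hA _ (sq_alt (α h))
      have h3 := hB (h * h * κ⁻¹) (Subgroup.mem_inf.2 ⟨H.mul_mem (H.mul_mem hh hh) (H.inv_mem hκ.1), by
        rw [MonoidHom.mem_ker, map_mul, map_mul, map_inv, eκ, mul_inv_cancel]⟩)
      rw [map_mul, map_mul, map_inv, MonoidHom.mem_ker.1 hκ.2, inv_one, mul_one, eh] at h3
      exact nsq hc' h3
  · push Not at hA
    have hB : ∀ h ∈ H ⊓ α.ker, β h = 1 := by
      by_contra hB
      push Not at hB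
      obtain ⟨h, hh, eh⟩ := alt hX sα hH h1 c cA
      obtain ⟨κ, hκ, eκ⟩ := alt hY sβ (K := H ⊓ α.ker) inferInstance hB _ (sq_alt (β h))
      have h3 := hA (h * h * κ⁻¹) (Subgroup.mem_inf.2 ⟨H.mul_mem (H.mul_mem hh hh) (H.inv_mem hκ.1), by
        rw [MonoidHom.mem_ker, map_mul, map_mul, map_inv, eκ, mul_inv_cancel]⟩)
      rw [map_mul, map_mul, map_inv, MonoidHom.mem_ker.1 hκ.2, inv_one, mul_one, eh] at h3
      exact nsq hc h3
    obtain ⟨h, hh, eh⟩ := alt hX sα hH h1 c cA
    have eα : (α h).cycleType = {r} := by rw [eh]; exact hc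
    refine ⟨h, hh, eα, ?_⟩
    apply cyc_transfer hY h5 hr hrN hNr
    · rw [← ord eα]
      apply Nat.dvd_antisymm
      · apply orderOf_dvd_of_pow_eq_one
        rw [← map_pow]
        apply hB
        refine Subgroup.mem_inf.2 ⟨pow_mem hh _, ?_⟩
        rw [MonoidHom.mem_ker, map_pow, pow_orderOf_eq_one]
      · apply orderOf_dvd_of_pow_eq_one
        rw [← map_pow]
        apply hA
        refine Subgroup.mem_inf.2 ⟨pow_mem hh _, ?_⟩
        rw [MonoidHom.mem_ker, map_pow, pow_orderOf_eq_one]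
    · have hcent := cent_of_cyc (by rw [hX]; exact hNr) eα
      refine (half_card _).trans (Nat.mul_le_mul_left 2 ?_)
      rw [← hcent]
      have hch : ∀ z : (Subgroup.centralizer {β h} ⊓ alternatingGroup Y : Subgroup (Perm Y)),
          ∃ g ∈ H, β g = z := fun z => alt hY sβ hH h2 _ z.2.2
      choose g hg eg using hch
      refine Nat.card_le_card_of_injective (fun z => ⟨α (g z), ?_⟩) ?_
      · rw [Subgroup.mem_centralizer_singleton_iff]
        have h3 : β (g z) * β h = β h * β (g z) := by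
          rw [eg]
          exact Subgroup.mem_centralizer_singleton_iff.1 z.2.1
        have h4 := hA (g z * h * (g z)⁻¹ * h⁻¹) (Subgroup.mem_inf.2
          ⟨H.mul_mem (H.mul_mem (H.mul_mem (hg z) hh) (H.inv_mem (hg z))) (H.inv_mem hh), by
            rw [MonoidHom.mem_ker, map_mul, map_mul, map_mul, map_inv, map_inv, h3]
            group⟩)
        rw [map_mul, map_mul, map_mul, map_inv, map_inv, mul_inv_eq_one, mul_inv_eq_iff_eq_mul]
          at h4
        exact h4
      · intro z w hzw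
        have h3 : α (g z) = α (g w) := congrArg Subtype.val hzw
        have h4 := hB (g z * (g w)⁻¹) (Subgroup.mem_inf.2 ⟨H.mul_mem (hg z) (H.inv_mem (hg w)), by
          rw [MonoidHom.mem_ker, map_mul, map_inv, h3, mul_inv_cancel]⟩)
        rw [map_mul, map_inv, mul_inv_eq_one, eg, eg] at h4
        exact Subtype.ext h4

end gours

end Pool.Agent.J4H46.TA
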