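import Pool.Agent.J4H46.TA.Defs
import Pool.Agent.X243.CD.Norm
import Pool.Agent.X243.CD.Concl
import Pool.Agent.X243.Gen.TI

/-!
Descent over `κ(t)` with all the places, for curves with a rational point of order two such that
`b` and `a ^ 2 - 4 b` have two irreducible factors, of odd degree.
-/

set_option autoImplicit false
set_option linter.all false

open WeierstrassCurve WeierstrassCurve.Affine IsDedekindDomain Polynomial
open scoped Classical

namespace Pool.Agent.J4H46.TA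

open Pool.Agent.TH115.GD Pool.Agent.X243.CD Pool.Agent.X243.Gen
open Pool.Agent.W309.TD (Sq hp SqStable sqStable_of_odd)
open Pool.Agent.W309

section places

variable (κ K : Type) [Field κ] [Field K] [Algebra κ[X] K] [IsFractionRing κ[X] K]

/-- The completion of `K = κ(t)` at a place; `none` is the place at infinity. -/
def LF : Option (HeightOneSpectrum κ[X]) → Type
  | none => CompInf κ K
  | some v => v.adicCompletion K

noncomputable instance lfField : ∀ v, Field (LF κ K v)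
  | none => inferInstanceAs (Field (CompInf κ K))
  | some v => inferInstanceAs (Field (v.adicCompletion K))

noncomputable instance lfAlgebra : ∀ v, Algebra K (LF κ K v)
  | none => inferInstanceAs (Algebra K (CompInf κ K))
  | some v => inferInstanceAs (Algebra K (v.adicCompletion K))

end places

section concl

variable {κ K : Type} [Field κ] [Field K] [Algebra κ[X] K] [IsFractionRing κ[X] K]
  (W : WeierstrassCurve K)

theorem shaAll_of (hhalf : Half W (SeparableClosure K)) {S : Set (Pt W K)}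
    (hD : Desc (SeparableClosure K) W (LF κ K) (fun v => SeparableClosure (LF κ K v)) S) :
    ShaTwoTrivialAll κ W := by
  intro f hf hl hi ht
  obtain ⟨m, Q, hm⟩ := ht
  obtain ⟨Q', hQ'⟩ := cocycles (W := W) (Ω := SeparableClosure K)
    (F := LF κ K) (Ω' := fun v => SeparableClosure (LF κ K v)) hhalf hD (f := f)
    ⟨hf.1, fun σ τ => by rw [rs_self]; exact hf.2 σ τ⟩ m
    ⟨Q, fun σ => by rw [rs_self]; exact hm σ⟩
    (fun v => by
      rcases v with _ | v
      · obtain ⟨ι, P, h⟩ := hi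
        exact ⟨ι, P, fun τ σ hτ => h τ σ hτ⟩
      · obtain ⟨ι, P, h⟩ := hl v
        exact ⟨ι, P, fun τ σ hτ => h τ σ hτ⟩)
  exact ⟨Q', fun σ => by rw [← rs_self]; exact hQ' σ⟩

end concl

section inf

variable {κ K : Type} [Field κ] [Field K] [Algebra κ[X] K] [IsFractionRing κ[X] K]

/-- The place at infinity. -/
theorem inf_loc {a b : κ[X]} {n : ℕ} (hb : b ≠ 0) (ha : a.natDegree ≤ 2 * n)
    (hbd : b.natDegree = 4 * n) {e : K}
    (h : LocZ (algebraMap κ[X] K a) (algebraMap κ[X] K b) (CompInf κ K) e) (A : κ[X]) (c : κ)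
    (h' : K) (mA : A.Monic) (hc : c ≠ 0) (hh : h' ≠ 0)
    (eA : e = algebraMap κ[X] K (C c * A) * h' ^ 2) : Even A.natDegree := by
  have hX0 : algebraMap κ[X] K X ≠ 0 := by simp
  have vX : ∀ m : ℕ, vInf κ K ((algebraMap κ[X] K X) ^ m) = WithZero.exp (m : ℤ) := by
    intro m
    rw [map_pow, vInf_poly X_ne_zero, natDegree_X, ← WithZero.exp_nsmul]
    simp
  obtain ⟨c', z, hc', ez, hz⟩ := h
  obtain ⟨w, hw⟩ : ∃ w : Valuation (CompInf κ K) (WithZero (Multiplicative ℤ)),
      ∀ x : K, w (algebraMap K (CompInf κ K) x) = vInf κ K x :=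
    ⟨(Valued.v (R := (pl (0 : κ)).adicCompletion (AtInf K))
      (Γ₀ := WithZero (Multiplicative ℤ))), fun x => wInf x⟩
  have hsq : IsSquare (vInf κ K e) := by
    rw [← hw, ez, map_mul, map_pow, pow_two]
    refine IsSquare.mul ⟨_, rfl⟩ (zc_evenI (v := w)
      (ρ := algebraMap K (CompInf κ K) ((algebraMap κ[X] K X) ^ n)) ?_ ?_ ?_ hz)
    · rw [Ne, map_eq_zero]
      exact pow_ne_zero n hX0
    · rw [hw, hw, vX, ← WithZero.exp_nsmul]
      by_cases ha0 : a = 0
      · rw [ha0, map_zero, map_zero]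
        exact zero_le
      · rw [vInf_poly ha0, WithZero.exp_le_exp]
        simp only [smul_eq_mul, nsmul_eq_mul]
        push_cast
        exact_mod_cast ha
    · rw [hw, hw, vX, ← WithZero.exp_nsmul, vInf_poly hb, hbd]
      congr 1
  have hcA : C c * A ≠ 0 := mul_ne_zero (C_ne_zero.2 hc) mA.ne_zero
  rw [eA, mul_comm, map_mul, map_pow, pow_two] at hsq
  have h3 := Pool.Agent.W309.TD.IsSquare.of_mul_left' ⟨_, rfl⟩
    (mul_ne_zero ((Valuation.ne_zero_iff _).2 hh) ((Valuation.ne_zero_iff _).2 hh)) hsq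
  rw [vInf_poly hcA, isSquare_exp, natDegree_C_mul hc] at h3
  exact_mod_cast h3

end inf

section fac

variable {κ : Type} [Field κ]

/-- A constant times an irreducible polynomial of odd degree. -/
def OneOddFac (f : κ[X]) : Prop :=
  ∃ (u : κ) (p : κ[X]), u ≠ 0 ∧ p.Monic ∧ Irreducible p ∧ Odd p.natDegree ∧ f = C u * p

/-- A constant times the product of two distinct irreducible polynomials of odd degree. -/
def TwoOddFac (f : κ[X]) : Prop :=
  ∃ (u : κ) (p q : κ[X]), u ≠ 0 ∧ p.Monic ∧ q.Monic ∧ Irreducible p ∧ Irreducible q ∧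
    Odd p.natDegree ∧ Odd q.natDegree ∧ p ≠ q ∧ f = C u * (p * q)

/-- One irreducible factor of odd degree and the degree is odd, or two irreducible factors of odd
degree and the degree is `4 n`. -/
def Fac (n : ℕ) (f : κ[X]) : Prop := OneOddFac f ∨ (TwoOddFac f ∧ f.natDegree = 4 * n)

theorem OneOddFac.ne {f : κ[X]} (h : OneOddFac f) : f ≠ 0 := by
  obtain ⟨u, p, hu, mp, -, -, rfl⟩ := h
  exact mul_ne_zero (C_ne_zero.2 hu) mp.ne_zero

theorem OneOddFac.smul {f : κ[X]} (h : OneOddFac f) {c : κ} (hc : c ≠ 0) :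
    OneOddFac (C c * f) := by
  obtain ⟨u, p, hu, mp, ip, op, rfl⟩ := h
  exact ⟨c * u, p, mul_ne_zero hc hu, mp, ip, op, by rw [C_mul]; ring⟩

theorem TwoOddFac.ne {f : κ[X]} (h : TwoOddFac f) : f ≠ 0 := by
  obtain ⟨u, p, q, hu, mp, mq, -, -, -, -, -, rfl⟩ := h
  exact mul_ne_zero (C_ne_zero.2 hu) (mul_ne_zero mp.ne_zero mq.ne_zero)

theorem TwoOddFac.smul {f : κ[X]} (h : TwoOddFac f) {c : κ} (hc : c ≠ 0) :
    TwoOddFac (C c * f) := by
  obtain ⟨u, p, q, hu, mp, mq, ip, iq, op, oq, hne, rfl⟩ := h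
  exact ⟨c * u, p, q, mul_ne_zero hc hu, mp, mq, ip, iq, op, oq, hne, by rw [C_mul]; ring⟩

theorem Fac.ne {n : ℕ} {f : κ[X]} (h : Fac n f) : f ≠ 0 := by
  rcases h with h | h
  · exact h.ne
  · exact h.1.ne

theorem Fac.smul {n : ℕ} {f : κ[X]} (h : Fac n f) {c : κ} (hc : c ≠ 0) :
    Fac n (C c * f) := by
  rcases h with h | h
  · exact Or.inl (h.smul hc)
  · exact Or.inr ⟨h.1.smul hc, by rw [natDegree_C_mul hc]; exact h.2⟩

theorem not_dvd_of {p q : κ[X]} (mp : p.Monic) (mq : q.Monic) (ip : Irreducible p)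
    (iq : Irreducible q) (hne : p ≠ q) : ¬ p ∣ q := by
  intro h
  have h1 : Associated p q := ip.associated_of_dvd iq h
  exact hne (eq_of_monic_of_associated mp mq h1)

/-- The monic divisors of an irreducible polynomial. -/
theorem one_dvd' {p A : κ[X]} {u : κ} (hu : u ≠ 0) (mp : p.Monic) (ip : Irreducible p)
    (mA : A.Monic) (hA : A ∣ C u * p) : A = 1 ∨ A = p := by
  have hCu : IsUnit (C u : κ[X]) := isUnit_C.2 (isUnit_iff_ne_zero.2 hu)
  have hA' : A ∣ p := (hCu.dvd_mul_left).1 hA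
  rcases ip.dvd_iff.1 hA' with h5 | h5
  · left
    exact eq_one_of_monic_natDegree_zero mA (natDegree_eq_zero_of_isUnit h5)
  · right
    exact eq_of_monic_of_associated mA mp h5.symm

/-- The monic divisors of even degree. -/
theorem even_dvd {p q A : κ[X]} {u : κ} (hu : u ≠ 0) (mp : p.Monic) (mq : q.Monic)
    (ip : Irreducible p) (iq : Irreducible q) (op : Odd p.natDegree) (oq : Odd q.natDegree)
    (hne : p ≠ q) (mA : A.Monic) (sA : Squarefree A) (hA : A ∣ C u * (p * q))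
    (hev : Even A.natDegree) : A = 1 ∨ A = p * q := by
  have hCu : IsUnit (C u : κ[X]) := isUnit_C.2 (isUnit_iff_ne_zero.2 hu)
  have hA' : A ∣ p * q := (hCu.dvd_mul_left).1 hA
  have hco : IsCoprime p q := (ip.coprime_iff_not_dvd).2 (not_dvd_of mp mq ip iq hne)
  by_cases h1 : p ∣ A
  · by_cases h2 : q ∣ A
    · right
      have h3 : p * q ∣ A := hco.mul_dvd h1 h2
      exact eq_of_monic_of_associated mA (mp.mul mq) (associated_of_dvd_dvd hA' h3)
    · exfalso
      have h3 : IsCoprime A q := ((iq.coprime_iff_not_dvd).2 h2).symm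
      have h4 : A ∣ p := h3.dvd_of_dvd_mul_right hA'
      have h5 : A = p := eq_of_monic_of_associated mA mp (associated_of_dvd_dvd h4 h1)
      rw [h5] at hev
      exact (Nat.not_even_iff_odd.2 op) hev
  · have h3 : IsCoprime A p := ((ip.coprime_iff_not_dvd).2 h1).symm
    have h4 : A ∣ q := h3.dvd_of_dvd_mul_left hA'
    rcases iq.dvd_iff.1 h4 with h5 | h5
    · left
      exact eq_one_of_monic_natDegree_zero mA (natDegree_eq_zero_of_isUnit h5)
    · exfalso
      have h6 : A = q := eq_of_monic_of_associated mA mq h5.symm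
      rw [h6] at hev
      exact (Nat.not_even_iff_odd.2 oq) hev

theorem odd_factor {n : ℕ} {f : κ[X]} (h : Fac n f) : HasOddFactor f := by
  rcases h with h | ⟨h, -⟩
  · obtain ⟨u, p, hu, mp, ip, op, rfl⟩ := h
    have hCu : IsUnit (C u : κ[X]) := isUnit_C.2 (isUnit_iff_ne_zero.2 hu)
    refine ⟨p, 0, ip, op, ?_, ?_⟩
    · rw [mul_zero, zero_add, pow_one]
      exact dvd_mul_left p _
    · rw [mul_zero, zero_add]
      intro h
      have h1 : p ^ 2 ∣ p := (hCu.dvd_mul_left).1 h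
      rw [pow_two] at h1
      have h2 : p * p ∣ p * 1 := by rw [mul_one]; exact h1
      exact ip.not_isUnit (isUnit_of_dvd_one ((mul_dvd_mul_iff_left mp.ne_zero).1 h2))
  · obtain ⟨u, p, q, hu, mp, mq, ip, iq, op, oq, hne, rfl⟩ := h
    have hCu : IsUnit (C u : κ[X]) := isUnit_C.2 (isUnit_iff_ne_zero.2 hu)
    refine ⟨p, 0, ip, op, ?_, ?_⟩
    · rw [mul_zero, zero_add, pow_one]
      exact (dvd_mul_right p q).mul_left _
    · rw [mul_zero, zero_add]
      intro h
      have h1 : p ^ 2 ∣ p * q := (hCu.dvd_mul_left).1 h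
      rw [pow_two] at h1
      exact not_dvd_of mp mq ip iq hne ((mul_dvd_mul_iff_left mp.ne_zero).1 h1)

/-- A place of odd valuation and odd degree. -/
theorem odd_place {K : Type} [Field K] [Algebra κ[X] K] [IsFractionRing κ[X] K] {n : ℕ} {f : κ[X]}
    (h : Fac n f) : ∃ (π : κ[X]) (hπ : Irreducible π), SqStable π ∧
      ¬ IsSquare ((hp π hπ).valuation K (algebraMap κ[X] K f)) := by
  rcases h with h | ⟨h, -⟩
  · obtain ⟨u, p, hu, mp, ip, op, rfl⟩ := h
    refine ⟨p, ip, sqStable_of_odd ip op, ?_⟩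
    have hCu : IsUnit (C u : κ[X]) := isUnit_C.2 (isUnit_iff_ne_zero.2 hu)
    rw [map_mul, map_mul, hp_one ip (fun h => ip.not_isUnit (isUnit_of_dvd_unit h hCu)), one_mul]
    exact hp_ns ip
  · obtain ⟨u, p, q, hu, mp, mq, ip, iq, op, oq, hne, rfl⟩ := h
    refine ⟨p, ip, sqStable_of_odd ip op, ?_⟩
    have hCu : IsUnit (C u : κ[X]) := isUnit_C.2 (isUnit_iff_ne_zero.2 hu)
    have e : C u * (p * q) = (C u * q) * p := by ring
    rw [e, map_mul, map_mul, hp_one ip (fun h => not_dvd_of mp mq ip iq hne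
      ((hCu.dvd_mul_left).1 h)), one_mul]
    exact hp_ns ip

end fac

section desc

variable {κ K : Type} [Field κ] [Field K] [Algebra κ[X] K] [IsFractionRing κ[X] K]

/-- The trivial points. -/
def Triv (a b : K) : Set (Pt (crvT a b) K) := {P | P = 0 ∨ ∃ h, P = Point.some 0 0 h}

theorem triv_complete {n : ℕ} {a b : κ[X]} (hb : Fac n b) :
    CompleteIn K a b (fun A => b.natDegree = 4 * n → Even A.natDegree)
      (Triv (algebraMap κ[X] K a) (algebraMap κ[X] K b)) := by
  have hb0 : algebraMap κ[X] K b ≠ 0 := by simpa using hb.ne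
  have h1 : ∀ A : κ[X], A = 1 →
      ∃ P : Pt (crvT (algebraMap κ[X] K a) (algebraMap κ[X] K b)) K,
      P ∈ Triv (algebraMap κ[X] K a) (algebraMap κ[X] K b) ∧
      ∃ (c : κ) (h : K), c ≠ 0 ∧ h ≠ 0 ∧ algebraMap κ[X] K (C c * A) =
        h ^ 2 * dT (algebraMap κ[X] K b) P := by
    rintro A rfl
    refine ⟨0, Or.inl rfl, 1, 1, one_ne_zero, one_ne_zero, ?_⟩
    have : dT (algebraMap κ[X] K b) (0 : Pt (crvT (algebraMap κ[X] K a)
      (algebraMap κ[X] K b)) K) = 1 := rfl
    rw [this, C_1, mul_one, map_one, one_pow, mul_one]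
  have h2 : ∀ (A : κ[X]) (u : κ), u ≠ 0 → b = C u * A →
      ∃ P : Pt (crvT (algebraMap κ[X] K a) (algebraMap κ[X] K b)) K,
      P ∈ Triv (algebraMap κ[X] K a) (algebraMap κ[X] K b) ∧
      ∃ (c : κ) (h : K), c ≠ 0 ∧ h ≠ 0 ∧ algebraMap κ[X] K (C c * A) =
        h ^ 2 * dT (algebraMap κ[X] K b) P := by
    intro A u hu e
    refine ⟨Point.some 0 0 (nonsing_T _ hb0), Or.inr ⟨_, rfl⟩, u, 1, hu, one_ne_zero, ?_⟩
    simp only [dT, if_true]
    rw [one_pow, one_mul, ← e]
  rcases hb with hb | ⟨hb, hdeg⟩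
  · obtain ⟨u, p, hu, mp, ip, op, e⟩ := hb
    intro A mA sA hA _
    rcases one_dvd' hu mp ip mA (e ▸ hA) with h | h
    · exact h1 A h
    · exact h2 A u hu (by rw [e, h])
  · obtain ⟨u, p, q, hu, mp, mq, ip, iq, op, oq, hne, e⟩ := hb
    intro A mA sA hA hev
    have hA' : A ∣ C u * (p * q) := e ▸ hA
    rcases even_dvd hu mp mq ip iq op oq hne mA sA hA' (hev hdeg) with h | h
    · exact h1 A h
    · exact h2 A u hu (by rw [e, h])

theorem emap2 (a b : κ[X]) : algebraMap κ[X] K (-2 * a) = -2 * algebraMap κ[X] K a := by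
  simp only [map_mul, map_neg, map_ofNat]

theorem fac16 (h2 : (2 : κ) ≠ 0) {n : ℕ} {a b : κ[X]} (hb : Fac n b) :
    Fac n ((-2 * a) ^ 2 - 4 * (a ^ 2 - 4 * b)) := by
  have h16 : (16 : κ) ≠ 0 := by
    have : (16 : κ) = (2 * 2) * (2 * 2) := by norm_num
    rw [this]
    exact mul_ne_zero (mul_ne_zero h2 h2) (mul_ne_zero h2 h2)
  have e : (-2 * a) ^ 2 - 4 * (a ^ 2 - 4 * b) = C (16 : κ) * b := by
    rw [C_ofNat]; ring
  rw [e]
  exact hb.smul h16

/-- The core for a family of places. -/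
theorem core_all (h2 : (2 : κ) ≠ 0) {n : ℕ} {a b : κ[X]} (hb : Fac n b)
    (hd : Fac n (a ^ 2 - 4 * b)) {e : K} (he : e ≠ 0)
    (hE : ∀ v : HeightOneSpectrum κ[X], v.valuation K (algebraMap κ[X] K b) = 1 →
      IsSquare (v.valuation K e))
    (hI : ∀ (A : κ[X]) (c : κ) (h : K), A.Monic → c ≠ 0 → h ≠ 0 →
      e = algebraMap κ[X] K (C c * A) * h ^ 2 → b.natDegree = 4 * n → Even A.natDegree)
    (hN : ∀ (π : κ[X]) (hπ : Irreducible π),
      ¬ IsSquare ((hp π hπ).valuation K (algebraMap κ[X] K (a ^ 2 - 4 * b))) →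
      NormSq (hp π hπ) (algebraMap κ[X] K (a ^ 2 - 4 * b)) e) :
    ∃ (P : Pt (crvT (algebraMap κ[X] K a) (algebraMap κ[X] K b)) K) (c : K),
      P ∈ Triv (algebraMap κ[X] K a) (algebraMap κ[X] K b) ∧ c ≠ 0 ∧
      e = c ^ 2 * dT (algebraMap κ[X] K b) P := by
  obtain ⟨π, hπ, hs, ho⟩ := odd_place (K := K) hd
  exact coreIn h2 hb.ne hd.ne (triv_complete hb) hπ hs he hE hI (hN π hπ ho)

theorem glob0_all (h2 : (2 : κ) ≠ 0) {a b : κ[X]} {n : ℕ} (ha : a.natDegree ≤ 2 * n)
    (hb : Fac n b) (hd : Fac n (a ^ 2 - 4 * b)) :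
    Glob0 (LF κ K) (algebraMap κ[X] K a) (algebraMap κ[X] K b)
      (Triv (algebraMap κ[X] K a) (algebraMap κ[X] K b)) := by
  have inj := IsFractionRing.injective κ[X] K
  have hbK : algebraMap κ[X] K b ≠ 0 := by simpa using hb.ne
  intro e he hloc
  have hz : ∀ v, LocZ (algebraMap κ[X] K a) (algebraMap κ[X] K b) (LF κ K v) e :=
    fun v => locz0 hbK (hloc v)
  refine core_all h2 hb hd he (fun v hv => fact_even v hv (hz (some v)))
    (fun A c h mA hc hh e1 hbd => inf_loc hb.ne ha hbd (hz none) A c h mA hc hh e1) ?_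
  intro π hπ ho
  rw [emap'] at ho ⊢
  refine normSq_of_loc he (tt h2) ?_ ho (hz (some (hp π hπ)))
  rw [← emap', Ne, map_eq_zero_iff _ inj]
  exact hd.ne

theorem glob1_all (h2 : (2 : κ) ≠ 0) {a b : κ[X]} {n : ℕ} (ha : a.natDegree ≤ 2 * n)
    (hb : Fac n b) (hd : Fac n (a ^ 2 - 4 * b)) :
    Glob1 (LF κ K) (algebraMap κ[X] K a) (algebraMap κ[X] K b) := by
  have inj := IsFractionRing.injective κ[X] K
  intro e he hloc
  have hz : ∀ v, LocZ (algebraMap κ[X] K (-2 * a)) (algebraMap κ[X] K (a ^ 2 - 4 * b))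
      (LF κ K v) e := fun v => conv1 (hloc v)
  have hd2 := fac16 (a := a) h2 hb
  have ha' : (-2 * a).natDegree ≤ 2 * n := by
    have e1 : (-2 * a : κ[X]) = C (-2) * a := by rw [C_neg, C_ofNat]
    rw [e1]
    exact (natDegree_C_mul_le _ _).trans ha
  obtain ⟨P, c, hP, hc, h3⟩ := core_all h2 hd hd2 he
    (fun v hv => fact_even v hv (hz (some v)))
    (fun A c h mA hc hh e1 hdd => inf_loc hd.ne ha' hdd (hz none) A c h mA hc hh e1) (by
      intro π hπ ho
      rw [emap'] at ho ⊢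
      refine normSq_of_loc he (tt h2) ?_ ho (hz (some (hp π hπ)))
      rw [← emap', Ne, map_eq_zero_iff _ inj]
      exact hd2.ne)
  refine ⟨c, hc, ?_⟩
  rcases hP with rfl | ⟨hn, rfl⟩
  · left
    have : dT (algebraMap κ[X] K (a ^ 2 - 4 * b)) (0 : Pt (crvT (algebraMap κ[X] K (-2 * a))
      (algebraMap κ[X] K (a ^ 2 - 4 * b))) K) = 1 := rfl
    rw [h3, this, mul_one]
  · right
    simp only [dT, if_true] at h3
    rw [h3, emap']

/-- **The descent with all the places.** -/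
theorem desc_all (h2 : (2 : κ) ≠ 0) {a b : κ[X]} {n : ℕ} (ha : a.natDegree ≤ 2 * n)
    (hb : Fac n b) (hd : Fac n (a ^ 2 - 4 * b)) :
    Sha.PointsComplete (crvT (algebraMap κ[X] K a) (algebraMap κ[X] K b)) ∧
    ShaTwoTrivialAll κ (crvT (algebraMap κ[X] K a) (algebraMap κ[X] K b)) := by
  have h2K : (2 : K) ≠ 0 := tt h2
  have inj := IsFractionRing.injective κ[X] K
  have hbK : algebraMap κ[X] K b ≠ 0 := by simpa using hb.ne
  have hdK : (algebraMap κ[X] K a) ^ 2 - 4 * algebraMap κ[X] K b ≠ 0 := by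
    rw [← emap', Ne, map_eq_zero_iff _ inj]
    exact hd.ne
  obtain ⟨α, β, hR⟩ := exists_roots (Ω := SeparableClosure K) h2K hbK hdK
  have hD := descT (Ω' := fun v => SeparableClosure (LF κ K v)) (F := LF κ K) hR
    (glob0_all h2 ha hb hd) (glob1_all h2 ha hb hd)
  have hhalf : Half (crvT (algebraMap κ[X] K a) (algebraMap κ[X] K b)) (SeparableClosure K) :=
    halve_sep hR.E
  refine ⟨fun P0 => ?_, shaAll_of _ hhalf hD⟩
  obtain ⟨Q, P, hP, h⟩ := points (W := crvT (algebraMap κ[X] K a) (algebraMap κ[X] K b))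
    (Ω := SeparableClosure K) (F := LF κ K) (Ω' := fun v => SeparableClosure (LF κ K v))
    hhalf hD P0
  refine ⟨Q, P, ?_, h⟩
  rcases hP with rfl | ⟨hn, rfl⟩
  · exact add_zero 0
  · exact dbl_T _ hbK

end desc

end Pool.Agent.J4H46.TA
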