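import Pool.Agent.J4H46.TA.Crit
import Pool.Agent.N601.PB.Hom

/-!
A positive proportion of the reductions of an elliptic surface with a section of order two.
-/

set_option autoImplicit false
set_option linter.all false

open Polynomial NumberField IsDedekindDomain Filter Topology WeierstrassCurve
open scoped Classical

namespace Pool.Agent.J4H46.TA

open Pool.Agent.W401.Cheb Pool.Agent.TH115.GD Pool.Agent.W309

section holds

/-- A group which is finitely generated and equal to the doubles plus the points of order two is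
finite. -/
theorem finite_of_complete {A : Type} [AddCommGroup A] (h : ∀ P : A, ∃ Q T : A, T + T = 0 ∧
    P = Q + Q + T) (hfg : AddGroup.FG A) : Finite A := by
  let H : AddSubgroup A :=
    { carrier := {T | T + T = 0}
      zero_mem' := add_zero 0
      add_mem' := fun {x y} hx hy => by
        show x + y + (x + y) = 0
        rw [add_add_add_comm, show x + x = 0 from hx, show y + y = 0 from hy, add_zero]
      neg_mem' := fun {x} hx => by
        show -x + -x = 0
        rw [← neg_add, show x + x = 0 from hx, neg_zero] }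
  obtain ⟨r, hr, hr'⟩ := Pool.Agent.N601.PB.odd_exponent H hfg (fun P => by
    obtain ⟨Q, T, hT, e⟩ := h P
    exact ⟨Q, T, hT, e⟩)
  have htor : IsAddTorsion A := by
    intro P
    rw [isOfFinAddOrder_iff_nsmul_eq_zero]
    refine ⟨2 * r, Nat.mul_pos two_pos hr.pos, ?_⟩
    have h3 : r • P + r • P = 0 := hr' P
    rw [two_mul, add_nsmul, h3]
  have : AddGroup.FG A := hfg
  exact AddCommGroup.finite_of_fg_isAddTorsion A htor

theorem twist_disc {κ : Type} [Field κ] (a b : κ[X]) (c : κ) :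
    (C c * a) ^ 2 - 4 * (C (c ^ 2) * b) = C (c ^ 2) * (a ^ 2 - 4 * b) := by
  rw [C_pow]; ring

theorem holdsFor {κ : Type} [Field κ] (h2 : (2 : κ) ≠ 0) {a b : κ[X]} {n : ℕ}
    (ha : a.natDegree ≤ 2 * n) (hs1 : b.Separable) (hs2 : (a ^ 2 - 4 * b).Separable)
    (hb : Fac n b) (hd : Fac n (a ^ 2 - 4 * b)) : HoldsFor κ a b := by
  intro κ' K F _ _ _ _ _ _ _ _ _ hT c hc
  have hc2 : c ^ 2 ≠ 0 := pow_ne_zero 2 hc
  have ha' : (C c * a).natDegree ≤ 2 * n := (natDegree_C_mul_le _ _).trans ha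
  have hb' : Fac n (C (c ^ 2) * b) := hb.smul hc2
  have hd' : Fac n ((C c * a) ^ 2 - 4 * (C (c ^ 2) * b)) := by
    rw [twist_disc]; exact hd.smul hc2
  have hu : IsUnit (C (c ^ 2) : κ[X]) := isUnit_C.2 (isUnit_iff_ne_zero.2 hc2)
  have sb : (C (c ^ 2) * b).Separable := by
    obtain ⟨u, hu'⟩ := hu
    rw [← hu', mul_comm]
    exact hs1.mul_unit u.isUnit
  have sd : ((C c * a) ^ 2 - 4 * (C (c ^ 2) * b)).Separable := by
    rw [twist_disc, mul_comm]
    exact hs2.mul_unit hu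
  obtain ⟨g1, g2⟩ := desc_all (K := K) h2 ha' hb' hd'
  exact ⟨tate_all hT h2 ha' sb sd hb' hd', g1,
    fun hfg => finite_of_complete (A := Pt (twist K a b c) K) g1 hfg, g2⟩

end holds

section good

variable {k : Type} [Field k] [NumberField k]

/-- **The criterion.** -/
theorem criterion {n : ℕ} {a b : (𝓞 k)[X]} (ha : a.natDegree ≤ 2 * n)
    (hb : Odd b.natDegree ∨ b.natDegree = 4 * n)
    (hd : Odd (a ^ 2 - 4 * b).natDegree ∨ (a ^ 2 - 4 * b).natDegree = 4 * n)
    (hs1 : (b.map (algebraMap (𝓞 k) k)).Separable)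
    (hs2 : ((a ^ 2 - 4 * b).map (algebraMap (𝓞 k) k)).Separable)
    (hco : a = 0 ∨ IsCoprime (b.map (algebraMap (𝓞 k) k))
      ((a ^ 2 - 4 * b).map (algebraMap (𝓞 k) k))) {σ : GK k}
    (h1 : OddCycles σ (b.map (algebraMap (𝓞 k) k)))
    (h2 : OddCycles σ ((a ^ 2 - 4 * b).map (algebraMap (𝓞 k) k))) :
    ∃ δ : ℝ, 0 < δ ∧ ∀ᶠ N : ℕ in atTop, δ ≤ dens (GoodPrime a b) N := by
  obtain ⟨s, hs0, hsb⟩ := sep_red hs1
  obtain ⟨t, ht0, hsd⟩ := sep_red hs2
  obtain ⟨z, hz0, hcz⟩ : ∃ z : 𝓞 k, z ≠ 0 ∧ ∀ (κ : Type) [Field κ] (r : 𝓞 k →+* κ), r z ≠ 0 →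
      (a = 0 ∨ IsCoprime (b.map r) ((a ^ 2 - 4 * b).map r)) := by
    rcases hco with h0 | hco
    · exact ⟨1, one_ne_zero, fun κ _ r _ => Or.inl h0⟩
    · obtain ⟨z, hz0, hz⟩ := cop_red hco
      exact ⟨z, hz0, fun κ _ r hr => Or.inr (hz κ r hr)⟩
  have inj := FaithfulSMul.algebraMap_injective (𝓞 k) k
  have hb0 : b ≠ 0 := by
    rintro rfl
    rw [Polynomial.map_zero] at hs1
    exact hs1.ne_zero rfl
  have hd0 : a ^ 2 - 4 * b ≠ 0 := by
    intro h
    rw [h, Polynomial.map_zero] at hs2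
    exact hs2.ne_zero rfl
  obtain ⟨w, hw⟩ : ∃ w, w = 2 * b.leadingCoeff * (a ^ 2 - 4 * b).leadingCoeff * (s * t * z) :=
    ⟨_, rfl⟩
  have hw0 : w ≠ 0 := by
    rw [hw]
    refine mul_ne_zero (mul_ne_zero (mul_ne_zero two_ne_zero ?_) ?_)
      (mul_ne_zero (mul_ne_zero hs0 ht0) hz0)
    · exact leadingCoeff_ne_zero.2 hb0
    · exact leadingCoeff_ne_zero.2 hd0
  refine pos_odd (f := b.map (algebraMap (𝓞 k) k)) (g := (a ^ 2 - 4 * b).map (algebraMap (𝓞 k) k))
    ((Polynomial.map_ne_zero_iff inj).2 hb0) ((Polynomial.map_ne_zero_iff inj).2 hd0) h1 h2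
    (fin_bad hw0) ?_
  intro v hv τ t1 t2 hF κ _ r hr hk
  have hrw : r w ≠ 0 := by
    intro h0
    apply hv
    show w ∈ v.asIdeal
    rw [← hk, RingHom.mem_ker]
    exact h0
  rw [hw, map_mul, map_mul, map_mul, map_ofNat, map_mul, map_mul] at hrw
  have e2 : (2 : κ) ≠ 0 := left_ne_zero_of_mul (left_ne_zero_of_mul (left_ne_zero_of_mul hrw))
  have eb : r b.leadingCoeff ≠ 0 :=
    right_ne_zero_of_mul (left_ne_zero_of_mul (left_ne_zero_of_mul hrw))
  have ed : r (a ^ 2 - 4 * b).leadingCoeff ≠ 0 :=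
    right_ne_zero_of_mul (left_ne_zero_of_mul hrw)
  have er := right_ne_zero_of_mul hrw
  have sb := hsb κ r (left_ne_zero_of_mul (left_ne_zero_of_mul er))
  have sd := hsd κ r (right_ne_zero_of_mul (left_ne_zero_of_mul er))
  have ez := hcz κ r (right_ne_zero_of_mul er)
  have emap : (a ^ 2 - 4 * b).map r = (a.map r) ^ 2 - 4 * b.map r := by
    simp only [Polynomial.map_sub, Polynomial.map_mul, Polynomial.map_pow, Polynomial.map_ofNat]
  have f1 : Fac n (b.map r) := frob_fac hF t1 hr hk eb sb hb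
  have f2 : Fac n ((a ^ 2 - 4 * b).map r) := frob_fac hF t2 hr hk ed sd hd
  refine ⟨e2, natDegree_map_of_leadingCoeff_ne_zero r eb, sb,
    natDegree_map_of_leadingCoeff_ne_zero r ed, sd, ez,
    holdsFor (n := n) e2 (natDegree_map_le.trans ha) sb ?_ f1 ?_⟩
  · rw [← emap]; exact sd
  · rw [← emap]; exact f2

end good

end Pool.Agent.J4H46.TA
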