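import Pool.Agent.J4H46.TA.FF

/-!
The reduction of a polynomial at a prime with a given Frobenius element.
-/

set_option autoImplicit false
set_option linter.all false

open Polynomial
open scoped Classical

namespace Pool.Agent.J4H46.TA

section red

variable {R S kb κ Ω : Type} [CommRing R] [CommRing S] [Field kb] [Field κ] [Finite κ] [Field Ω]
  [Algebra κ Ω] {g : R →+* S} {j : S →+* kb} (hj : Function.Injective j) {r : R →+* κ}
  {φ : S →+* Ω} (hφ : ∀ x : R, φ (g x) = algebraMap κ Ω (r x)) {t : S →+* S} {τ : kb →+* kb}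
  (hjt : ∀ s, j (t s) = τ (j s)) (hτ : ∀ s : S, φ (t s) = φ s ^ Nat.card κ)

include hj hφ hjt hτ in
theorem red_split {f : R[X]} (hl : r f.leadingCoeff ≠ 0) (sf : (f.map r).Separable)
    (hsplit : (f.map (j.comp g)).Splits)
    (hint : ∀ β : kb, eval₂ (j.comp g) β f = 0 → ∃ s : S, j s = j (g f.leadingCoeff) * β)
    (hfix : ∀ x : R, t (g x) = g x)
    {x y : kb} (hx : eval₂ (j.comp g) x f = 0) (hy : eval₂ (j.comp g) y f = 0) {m n : ℕ}
    (om : Odd m) (on : Odd n) (ex : τ^[m] x = x) (ey : τ^[n] y = y)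
    (hall : ∀ z : kb, eval₂ (j.comp g) z f = 0 → ∃ i : ℕ, z = τ^[i] x ∨ z = τ^[i] y) :
    (Odd f.natDegree → OneOddFac (f.map r)) ∧ (Even f.natDegree → TwoOddFac (f.map r)) := by
  haveI := Fintype.ofFinite κ
  obtain ⟨l, hl'⟩ : ∃ l, l = f.leadingCoeff := ⟨_, rfl⟩
  obtain ⟨q, hq⟩ : ∃ q, q = Nat.card κ := ⟨_, rfl⟩
  rw [← hl'] at hl hint
  rw [← hq] at hτ
  have hlΩ : φ (g l) ≠ 0 := by
    rw [hφ]
    exact (_root_.map_ne_zero _).2 hl
  have hlq : φ (g l) ^ q = φ (g l) := by
    rw [← hτ, hfix]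
  have hlqi : ∀ i, φ (g l) ^ (q ^ i) = φ (g l) := by
    intro i
    induction i with
    | zero => rw [pow_zero, pow_one]
    | succ i ih => rw [pow_succ, pow_mul, ih, hlq]
  have hgl : g l ≠ 0 := fun h => hlΩ (by rw [h, map_zero])
  have hjl : j (g l) ≠ 0 := fun h => hgl (hj (by rw [h, map_zero]))
  have hf0 : f ≠ 0 := by
    rintro rfl
    rw [leadingCoeff_zero] at hl'
    exact hl (by rw [hl', map_zero])
  have hdeg : (f.map r).natDegree = f.natDegree :=
    natDegree_map_of_leadingCoeff_ne_zero r (by rw [← hl']; exact hl)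
  -- the integral elements
  choose! I hI using hint
  have hrep : ∀ i : ℕ, ∀ s : S, φ (t^[i] s) = φ s ^ (q ^ i) := by
    intro i
    induction i with
    | zero => intro s; rw [pow_zero, pow_one]; rfl
    | succ i ih =>
      intro s
      rw [Function.iterate_succ_apply', hτ, ih, ← pow_mul, ← pow_succ]
  have hjrep : ∀ i : ℕ, ∀ s : S, j (t^[i] s) = τ^[i] (j s) := by
    intro i
    induction i with
    | zero => intro s; rfl
    | succ i ih =>
      intro s
      rw [Function.iterate_succ_apply', hjt, ih, Function.iterate_succ_apply']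
  have hτl : ∀ i : ℕ, τ^[i] (j (g l)) = j (g l) := by
    intro i
    induction i with
    | zero => rfl
    | succ i ih => rw [Function.iterate_succ_apply', ih, ← hjt, hfix]
  have hτm : ∀ i : ℕ, ∀ a b : kb, τ^[i] (a * b) = τ^[i] a * τ^[i] b := by
    intro i
    induction i with
    | zero => intro a b; rfl
    | succ i ih =>
      intro a b
      rw [Function.iterate_succ_apply', ih, map_mul, Function.iterate_succ_apply',
        Function.iterate_succ_apply']
  -- the key relation
  have hIi : ∀ (i : ℕ) (β : kb) (s : S), eval₂ (j.comp g) β f = 0 →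
      j s = j (g l) * τ^[i] β → φ s = φ (I β) ^ (q ^ i) := by
    intro i β s hβ hs
    have h1 : j (t^[i] (I β)) = j s := by
      rw [hjrep, hI β hβ, hτm, hτl, hs]
    rw [← hj h1, hrep]
  -- the factorization
  have hfs : scaleRoots (f.map (j.comp g)) (j (g l)) = (scaleRoots f l).map (j.comp g) := by
    rw [map_scaleRoots _ _ _ (by rw [← hl']; exact hjl)]
    rfl
  have hlead : (f.map (j.comp g)).leadingCoeff = j (g l) := by
    rw [leadingCoeff_map_of_leadingCoeff_ne_zero _ (by rw [← hl']; exact hjl), hl']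
    rfl
  have hprod : (scaleRoots f l).map (j.comp g) = C (j (g l)) *
      ((f.map (j.comp g)).roots.map (fun β => X - C (j (g l) * β))).prod := by
    have h1 := (hsplit.scaleRoots (j (g l))).eq_prod_roots
    rw [leadingCoeff_scaleRoots, hlead, roots_scaleRoots _ (isUnit_iff_ne_zero.2 hjl),
      Multiset.map_map] at h1
    rw [← hfs, h1]
    rfl
  have hroots : ∀ β ∈ (f.map (j.comp g)).roots, eval₂ (j.comp g) β f = 0 := by
    intro β hβ
    rw [← eval_map]
    exact (mem_roots'.1 hβ).2
  have hprodS : (scaleRoots f l).map g = C (g l) *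
      ((f.map (j.comp g)).roots.map (fun β => X - C (I β))).prod := by
    apply map_injective j hj
    rw [Polynomial.map_mul, map_C, Polynomial.map_map, hprod, Polynomial.map_multiset_prod,
      Multiset.map_map]
    congr 2
    apply Multiset.map_congr rfl
    intro β hβ
    show _ = (X - C (I β)).map j
    rw [Polynomial.map_sub, map_X, map_C, hI β (hroots β hβ)]
  have hcomp : φ.comp g = (algebraMap κ Ω).comp r := RingHom.ext hφ
  have hfΩ : (f.map r).map (algebraMap κ Ω) = f.map (φ.comp g) := by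
    rw [hcomp, Polynomial.map_map]
  have hprodΩ : scaleRoots (f.map (φ.comp g)) (φ (g l)) = C (φ (g l)) *
      ((f.map (j.comp g)).roots.map (fun β => X - C (φ (I β)))).prod := by
    have h1 := congrArg (Polynomial.map φ) hprodS
    rw [Polynomial.map_mul, map_C, Polynomial.map_map, Polynomial.map_multiset_prod,
      Multiset.map_map] at h1
    have h2 : scaleRoots (f.map (φ.comp g)) (φ (g l)) = (scaleRoots f l).map (φ.comp g) := by
      rw [map_scaleRoots _ _ _ (by rw [← hl']; exact hlΩ)]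
      rfl
    rw [h2, h1]
    congr 2
    apply Multiset.map_congr rfl
    intro β _
    show (X - C (I β)).map φ = _
    rw [Polynomial.map_sub, map_X, map_C]
  have hsp1 : (scaleRoots (f.map (φ.comp g)) (φ (g l))).Splits := by
    rw [hprodΩ]
    refine (Splits.C _).mul ?_
    apply Splits.multisetProd
    intro p hp
    obtain ⟨β, -, rfl⟩ := Multiset.mem_map.1 hp
    exact Splits.X_sub_C _
  have hspΩ : ((f.map r).map (algebraMap κ Ω)).Splits := by
    have h1 := hsp1.scaleRoots (φ (g l))⁻¹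
    rw [← scaleRoots_mul, mul_inv_cancel₀ hlΩ, scaleRoots_one] at h1
    rw [hfΩ]
    exact h1
  have hrootΩ : ∀ β : kb, eval₂ (j.comp g) β f = 0 →
      aeval (φ (I β) / φ (g l)) (f.map r) = 0 := by
    intro β hβ
    have h1 : eval (φ (I β)) (scaleRoots (f.map (φ.comp g)) (φ (g l))) = 0 := by
      rw [hprodΩ, eval_mul, eval_multiset_prod, Multiset.map_map]
      apply mul_eq_zero_of_right
      apply Multiset.prod_eq_zero
      rw [Multiset.mem_map]
      refine ⟨β, ?_, ?_⟩
      · rw [mem_roots']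
        refine ⟨?_, ?_⟩
        · intro h
          rw [h, leadingCoeff_zero] at hlead
          exact hjl hlead.symm
        · rw [IsRoot.def, eval_map]
          exact hβ
      · show eval (φ (I β)) (X - C (φ (I β))) = 0
        rw [eval_sub, eval_X, eval_C, sub_self]
    have h3 := scaleRoots_eval_mul (f.map (φ.comp g)) (φ (I β) / φ (g l)) (φ (g l))
    rw [mul_div_cancel₀ _ hlΩ, h1] at h3
    have h4 := (mul_eq_zero.1 h3.symm).resolve_left (pow_ne_zero _ hlΩ)
    rw [aeval_def, ← eval_map, hfΩ]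
    exact h4
  have hsurj : ∀ z : Ω, aeval z (f.map r) = 0 → ∃ β : kb, eval₂ (j.comp g) β f = 0 ∧
      z = φ (I β) / φ (g l) := by
    intro z hz
    rw [aeval_def, ← eval_map, hfΩ] at hz
    have h3 := scaleRoots_eval_mul (f.map (φ.comp g)) z (φ (g l))
    rw [hz, mul_zero, hprodΩ, eval_mul, eval_multiset_prod, Multiset.map_map] at h3
    have h4 := (mul_eq_zero.1 h3).resolve_left (by rw [eval_C]; exact hlΩ)
    rw [Multiset.prod_eq_zero_iff, Multiset.mem_map] at h4
    obtain ⟨β, hβ, h5⟩ := h4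
    refine ⟨β, hroots β hβ, ?_⟩
    have h6 : eval (φ (g l) * z) (X - C (φ (I β))) = 0 := h5
    rw [eval_sub, eval_X, eval_C, sub_eq_zero] at h6
    rw [eq_div_iff hlΩ, mul_comm]
    exact h6
  have hper : ∀ {x : kb} {m : ℕ}, eval₂ (j.comp g) x f = 0 → τ^[m] x = x →
      (φ (I x) / φ (g l)) ^ (q ^ m) = φ (I x) / φ (g l) := by
    intro x m hx ex
    rw [div_pow, hlqi, ← hIi m x (I x) hx (by rw [ex, hI x hx])]
  rw [← hdeg]
  refine split_of_orbits (Ω := Ω) sf hspΩ
    (x := φ (I x) / φ (g l)) (y := φ (I y) / φ (g l)) (hrootΩ x hx) (hrootΩ y hy) om on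
    (by rw [← hq]; exact hper hx ex) (by rw [← hq]; exact hper hy ey) ?_
  intro z hz
  obtain ⟨β, hβ, rfl⟩ := hsurj z hz
  obtain ⟨i, h | h⟩ := hall β hβ
  · refine ⟨i, Or.inl ?_⟩
    rw [← hq, div_pow, hlqi, ← hIi i x (I β) hx (by rw [hI β hβ, h])]
  · refine ⟨i, Or.inr ?_⟩
    rw [← hq, div_pow, hlqi, ← hIi i y (I β) hy (by rw [hI β hβ, h])]

end red

end Pool.Agent.J4H46.TA
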